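import Pool.Agent.Run7.h552.MX.Orth
import Pool.Agent.Run7.h552.SF.App

/-!
# Application to multilinear maps with values in an algebra, members of both types
-/

set_option autoImplicit false
set_option linter.unusedSectionVars false

namespace Run7.h552.MX

open Module Finset Function Pool.Agent.TH118.SG Pool.Agent.TH125.Gal Pool.Agent.Y127.G
  Pool.Agent.Y127.C Pool.Agent.Y95.ZT Run7.h552.CT Run7.h552.SF

noncomputable section

section mem

variable {K : Type} [Field K] [CharZero K] {Γ : Type} [Group Γ] {ι : Type}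
  {N : ι → FRep K Γ} {t t' : ι}

/-- A member of symplectic or of orthogonal type. -/
inductive Mem (N : ι → FRep K Γ) (t : ι) : Type
  | sp (o : FulS N t) : Mem N t
  | so (o : Ful N t) : Mem N t

/-- the form -/
def Mem.B : Mem N t → ((N t).V →ₗ[K] (N t).V →ₗ[K] K)
  | .sp o => o.B
  | .so o => o.B

/-- the sign -/
def Mem.s : Mem N t → K
  | .sp _ => -1
  | .so _ => 1

/-- orthogonal type -/
def Mem.IsO : Mem N t → Prop
  | .sp _ => False
  | .so _ => True

/-- **Goursat.** -/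
theorem Mem.good_finset (o : Mem N t) (S : Finset ι) (h : ∀ a ∈ S, Good N t a) (x y : (N t).V) :
    ∃ D ∈ GG1 N, (∀ a ∈ S, D a = 0) ∧ D t = oo o.B o.s x y := by
  cases o with
  | sp o => exact o.good_finset S h x y
  | so o => exact o.good_finset S h x y

end mem

variable {K : Type} [Field K] [CharZero K] {Γ : Type} [Group Γ]

section op

variable {A : Type} [Ring A] [Algebra K A] [FiniteDimensional K A] [IsAlgClosed K]

/-- **From an operator which kills the other members.** -/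
theorem kill_of_op {ι : Type} {m : ℕ} {T : ι → FRep K Γ} {M : Fin m → FRep K Γ}
    {χ : Γ →* Kˣ} {τ : Γ →* (A ≃ₐ[K] A)} {S : Set ι} (hgen : GenBy T M χ τ S)
    {μ : ι → Γ →* Kˣ} {κ : Fin m → Γ →* Kˣ} {i : ι} (lam : Γ →* Kˣ)
    {R : Type} [Fintype R] [DecidableEq R]
    {h : MultilinearMap K (fun _ : R => (T i).V) A} (hh : Eqv (T i).ρ (algRep lam τ).ρ h)
    {D : ∀ j, (fam T M μ κ χ lam τ j).V →ₗ[K] (fam T M μ κ χ lam τ j).V}
    (hD : D ∈ GG1 (fam T M μ κ χ lam τ)) (hDT : ∀ j ∈ S, D (Ix.t j) = 0)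
    (hDM : ∀ a, D (Ix.pc a) = 0) : Kill (D (Ix.t i) : Module.End K (T i).V) h := by
  classical
  let N : Ix ι m → FRep K Γ := fam T M μ κ χ lam τ
  have hDG := GG1_le hD
  have hDl : D Ix.lam = 0 := GG1_line hD (line_finrank _).le
  have hDc : ∀ n, D (Ix.chi n) = 0 := fun n => GG1_line hD (line_finrank _).le
  -- the derivation of the algebra
  let E : A →ₗ[K] A := D Ix.alg
  have hE : ∀ a b : A, E (a * b) = E a * b + a * E b := by
    intro a b
    have h1 : ∀ (g : Γ) (x y : A), (((1 : Γ →* Kˣ) g : K) • τ g x) *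
        (((1 : Γ →* Kˣ) g : K) • τ g y) = ((1 : Γ →* Kˣ) g : K) • τ g (x * y) := by
      intro g x y
      simp
    exact (bil_der (N := N) (a := Ix.alg) (b := Ix.alg) (c := Ix.alg) (LinearMap.mul K A)
      (Δ := ⊤) inferInstance (fun g _ x y => h1 g x y) hDG a b).symm
  have hE1 : E 1 = 0 := by
    have h1 := hE 1 1
    rw [mul_one, mul_one, one_mul] at h1
    exact left_eq_add.1 h1
  have hE0 : ∀ a : A, E a = 0 := by
    intro a
    have ha : a ∈ Algebra.adjoin K (SemiInv χ τ ∪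
      ({x | ∃ j ∈ S, ∃ f : (T j).V →ₗ[K] A, (∀ g y, f ((T j).ρ g y) = τ g (f y)) ∧ ∃ y, f y = x} ∪
       {x | ∃ a, ∃ f : (M a).V →ₗ[K] A, (∀ g y, f ((M a).ρ g y) = τ g (f y)) ∧ ∃ y, f y = x})) := by
      rw [hgen]
      exact Algebra.mem_top
    induction ha using Algebra.adjoin_induction with
    | mem a ha =>
      rcases ha with ⟨n, Δ, hΔ, h1⟩ | ⟨j, hj, f, hf, z, rfl⟩ | ⟨b, f, hf, z, rfl⟩
      · have h4 : ∀ g ∈ Δ, ∀ z : K, (((χ ^ n) g : K) • z) • a =
            ((1 : Γ →* Kˣ) g : K) • τ g (z • a) := by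
          intro g hg z
          rw [map_smul, h1 g hg, MonoidHom.one_apply, Units.val_one, one_smul,
            MonoidHom.pow_apply, Units.val_pow_eq_pow_val, smul_comm z, smul_assoc]
        have h2 := lin_der (N := N) (a := Ix.chi n) (c := Ix.alg)
          (LinearMap.toSpanSingleton K A a) hΔ (fun g hg z => h4 g hg z) hDG (1 : K)
        rw [hDc] at h2
        have h3 : E ((1 : K) • a) = 0 := by
          refine Eq.trans h2.symm ?_
          exact map_zero _
        rwa [one_smul] at h3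
      · have h4 : ∀ (g : Γ) (y : (T j).V), f ((T j).ρ g y) =
            ((1 : Γ →* Kˣ) g : K) • τ g (f y) := by
          intro g y
          rw [hf, MonoidHom.one_apply, Units.val_one, one_smul]
        have h2 := lin_der (N := N) (a := Ix.t j) (c := Ix.alg) f (Δ := ⊤) inferInstance
          (fun g _ y => h4 g y) hDG z
        rw [hDT j hj] at h2
        exact h2.symm.trans (map_zero f)
      · have h4 : ∀ (g : Γ) (y : (M b).V), f ((M b).ρ g y) =
            ((1 : Γ →* Kˣ) g : K) • τ g (f y) := by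
          intro g y
          rw [hf, MonoidHom.one_apply, Units.val_one, one_smul]
        have h2 := lin_der (N := N) (a := Ix.pc b) (c := Ix.alg) f (Δ := ⊤) inferInstance
          (fun g _ y => h4 g y) hDG z
        rw [hDM b] at h2
        exact h2.symm.trans (map_zero f)
    | algebraMap r => rw [Algebra.algebraMap_eq_smul_one, map_smul, hE1, smul_zero]
    | add a b _ _ ha hb => rw [map_add, ha, hb, add_zero]
    | mul a b _ _ ha hb => rw [hE, ha, hb, zero_mul, mul_zero, add_zero]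
  -- the target
  have htgt : ∀ a : A, D Ix.tgt a = 0 := by
    intro a
    have h4 : ∀ (g : Γ) (x : K) (y : A), ((lam g : K) • x) • (((1 : Γ →* Kˣ) g : K) • τ g y) =
        (lam g : K) • τ g (x • y) := by
      intro g x y
      rw [map_smul, MonoidHom.one_apply, Units.val_one, one_smul, smul_assoc]
    have h1 := bil_der (N := N) (a := Ix.lam) (b := Ix.alg) (c := Ix.tgt)
      (LinearMap.lsmul K A) (Δ := ⊤) inferInstance (fun g _ x y => h4 g x y) hDG (1 : K) a
    rw [hDl] at h1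
    have h2 : D Ix.tgt ((1 : K) • a) = 0 := by
      refine Eq.trans h1.symm ?_
      change (0 : K) • a + (1 : K) • E a = 0
      rw [hE0, smul_zero, zero_smul, add_zero]
    rwa [one_smul] at h2
  intro w
  obtain ⟨Δ, hΔ, hΔh⟩ := hh
  have h1 := hDG R (fun _ => Ix.t i) Ix.tgt h ⟨Δ, hΔ, hΔh⟩ w
  have h2 : D Ix.tgt (h w) = 0 := htgt (h w)
  exact h1.trans h2

end op

/-- The local conditions, orthogonal type: slopes, weights, or a maximal degeneration. -/
def BigLocO (M : FRep K Γ) : Prop :=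
  (∃ (v : Additive Kˣ →+ ℚ) (F : Γ) (p q : ℕ) (h c : ℚ), 0 < c ∧ LvNum p q ∧
    slopes v (M.ρ F) = Level p q h c) ∨
  (∃ (D : WeightOp K Γ) (p q : ℕ) (h : ℤ), LvNum p q ∧ HasWeights (D.Θ M) (lvW p q h)) ∨
  ∃ g : Γ, Pool.Agent.Q71.TM.LocRep M (.inertia g)

/-- A representation of orthogonal type: a symmetric form which is invariant up to a character,
strongly irreducible, of rank `3` or at least `5`, with one of the local conditions. -/
structure ORepM (M : FRep K Γ) where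
  B : M.V →ₗ[K] M.V →ₗ[K] K
  μ : Γ →* Kˣ
  eqv : ∀ g x y, B (M.ρ g x) (M.ρ g y) = (μ g : K) * B x y
  sy : ∀ x y, B x y = B y x
  nd : ∀ x, (∀ y, B x y = 0) → x = 0
  si : SI M.ρ
  dim : finrank K M.V = 3 ∨ 5 ≤ finrank K M.V
  loc : BigLocO M

/-- The representation `M` is small with respect to `T`, by a local condition. -/
def SmallLocO (T M : FRep K Γ) : Prop :=
  (∃ (v : Additive Kˣ →+ ℚ) (F : Γ) (δ : ℚ),
    2 * gaps (slopes v (M.ρ F)) δ + (slopes v (T.ρ F)).count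
      ((slopes v (T.ρ F)).sum / (slopes v (T.ρ F)).card + δ / 2) < gaps (slopes v (T.ρ F)) δ) ∨
  (∃ (D : WeightOp K Γ) (s s' : Multiset ℤ) (δ : ℚ), HasWeights (D.Θ T) s ∧
    HasWeights (D.Θ M) s' ∧
    2 * gaps (s'.map fun z : ℤ => (z : ℚ)) δ + (s.map fun z : ℤ => (z : ℚ)).count
      ((s.map fun z : ℤ => (z : ℚ)).sum / (s.map fun z : ℤ => (z : ℚ)).card + δ / 2) <
        gaps (s.map fun z : ℤ => (z : ℚ)) δ) ∨
  (∃ g : Γ, Pool.Agent.Q71.TM.LocRep T (.inertia g) ∧
    Pool.Agent.Q71.TM.LocSmall M (finrank K T.V) (.inertia g)) ∨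
  ¬NA.Ent T M

/-- The representation `M` is small with respect to `T`. -/
def SmallRelO (T M : FRep K Γ) : Prop :=
  SmallLocO T M ∨ (HasForm 1 M ∧ finrank K M.V < finrank K T.V) ∨
  (HasForm (-1) M ∧ finrank K M.V + 1 < finrank K T.V) ∨
  (2 * finrank K M.V ^ 2 < finrank K T.V * (finrank K T.V - 1))

/-- A common local condition. -/
def SameLoc (M M' : FRep K Γ) : Prop :=
  (∃ (v : Additive Kˣ →+ ℚ) (F : Γ) (q q' : ℕ) (h h' c : ℚ), 0 < c ∧
    slopes v (M.ρ F) = Level 1 q h c ∧ slopes v (M'.ρ F) = Level 1 q' h' c) ∨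
  (∃ (D : WeightOp K Γ) (q q' : ℕ) (h h' : ℤ), HasWeights (D.Θ M) (lvW 1 q h) ∧
    HasWeights (D.Θ M') (lvW 1 q' h')) ∨
  ∃ g : Γ, Pool.Agent.Q71.TM.LocRep M (.inertia g) ∧ Pool.Agent.Q71.TM.LocRep M' (.inertia g)

theorem level_of_int (p q : ℕ) (h : ℤ) :
    ((lvW p q h).map fun z : ℤ => (z : ℚ)) = Level p q (h : ℚ) 1 := by
  rw [lvW, Level, Multiset.map_add, Multiset.map_add, Multiset.map_replicate,
    Multiset.map_replicate, Multiset.map_replicate]
  push_cast
  rfl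

section

variable [IsAlgClosed K] {ι : Type} {N : ι → FRep K Γ} {t t' : ι}

theorem exists_Ful_locO (e : K ≃+* ℂ) (fr : Frm N t) (sy : ∀ x y, fr.B x y = fr.B y x)
    (nd : ∀ x, (∀ y, fr.B x y = 0) → x = 0) (si : SI (N t).ρ)
    (dim : finrank K (N t).V = 3 ∨ 5 ≤ finrank K (N t).V) (h : BigLocO (N t)) :
    ∃ o : Ful N t, o.toFrm = fr := by
  rcases h with ⟨v, F, p, q, h, c, hc, hn, hs⟩ | ⟨D, p, q, h, hn, hs⟩ | ⟨g, h⟩
  · obtain ⟨J, hJG, hJ⟩ := exists_GG N (toK v) F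
    obtain ⟨κ, hκ, b, g, hb, hg⟩ := exists_slope_basis v ((N t).ρ F) (hJ t)
    rw [hs] at hg
    exact exists_Ful_lvQ e fr sy nd si hJG hn hc ⟨κ, hκ, b, g, hb, hg⟩
  · have h1 := HasWt.of_int hs
    rw [level_of_int] at h1
    exact exists_Ful_lvQ e fr sy nd si (D.mem N) hn one_pos h1
  · exact Pool.Agent.Q71.TM.loc_ful fr sy nd si dim h

theorem good_of_locO (o : Ful N t) {a : ι} (h : SmallLocO (N t) (N a)) : Good N t a := by
  rcases h with ⟨v, F, δ, h⟩ | ⟨D, s, s', δ, hs, hs', h⟩ | ⟨g, hg, h⟩ | h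
  · obtain ⟨J, hJG, hJ⟩ := exists_GG N (toK v) F
    obtain ⟨κ, hκ, b, g, hb, hg⟩ := exists_slope_basis v ((N t).ρ F) (hJ t)
    obtain ⟨κ', hκ', b', g', hb', hg'⟩ := exists_slope_basis v ((N a).ρ F) (hJ a)
    exact good_of_gapO o hJG ⟨κ, hκ, b, g, hb, hg⟩ ⟨κ', hκ', b', g', hb', hg'⟩ h
  · exact good_of_gapO o (D.mem N) (HasWt.of_int hs) (HasWt.of_int hs') h
  · exact Pool.Agent.Q71.TM.loc_small o.toFrm o.sy o.nd o.si o.dim hg h
  · exact NA.good_of_not_entO o h

theorem good_of_same (o : Ful N t) (o' : Ful N t') (h : SameLoc (N t) (N t'))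
    (hiso : ¬IsoUpTo (N t') (N t)) : Good N t t' := by
  rcases h with ⟨v, F, q, q', h, h', c, hc, h1, h2⟩ | ⟨D, q, q', h, h', h1, h2⟩ | ⟨g, h1, h2⟩
  · obtain ⟨J, hJG, hJ⟩ := exists_GG N (toK v) F
    obtain ⟨κ, hκ, b, g, hb, hg⟩ := exists_slope_basis v ((N t).ρ F) (hJ t)
    obtain ⟨κ', hκ', b', g', hb', hg'⟩ := exists_slope_basis v ((N t').ρ F) (hJ t')
    rw [h1] at hg
    rw [h2] at hg'
    exact good_same_lv o o' hJG hc ⟨κ, hκ, b, g, hb, hg⟩ ⟨κ', hκ', b', g', hb', hg'⟩ hiso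
  · have k1 := HasWt.of_int h1
    have k2 := HasWt.of_int h2
    rw [level_of_int] at k1 k2
    exact good_same_lv o o' (D.mem N) one_pos k1 k2 hiso
  · exact Pool.Agent.Q71.TM.loc_same o.toFrm o.sy o.nd o.si o.dim h1 o'.toFrm o'.sy o'.nd
      o'.si o'.dim h2 rfl hiso

end

/-- A representation of symplectic or of orthogonal type. -/
inductive MRep (M : FRep K Γ) : Type
  | sp (o : SRep M) : MRep M
  | so (o : ORepM M) : MRep M

/-- the form -/
def MRep.B {M : FRep K Γ} : MRep M → (M.V →ₗ[K] M.V →ₗ[K] K)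
  | .sp o => o.B
  | .so o => o.B

/-- the sign -/
def MRep.s {M : FRep K Γ} : MRep M → K
  | .sp _ => -1
  | .so _ => 1

/-- the multiplier -/
def MRep.μ {M : FRep K Γ} : MRep M → (Γ →* Kˣ)
  | .sp o => o.μ
  | .so o => o.μ

/-- orthogonal type -/
def MRep.IsO {M : FRep K Γ} : MRep M → Prop
  | .sp _ => False
  | .so _ => True

/-- small with respect to the member -/
def MRep.Small {T : FRep K Γ} (o : MRep T) (M : FRep K Γ) : Prop :=
  match o with
  | .sp _ => SmallRel T M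
  | .so _ => SmallRelO T M

/-- small with respect to the member, with the character of the form -/
def MRep.SmallK {T : FRep K Γ} (o : MRep T) (M : FRep K Γ) (κ : Γ →* Kˣ) : Prop :=
  match o with
  | .sp _ => SmallLoc T M ∨
      (∃ B : M.V →ₗ[K] M.V →ₗ[K] K, (∀ x y, B x y = (1 : K) * B y x) ∧
        (∀ x, (∀ y, B x y = 0) → x = 0) ∧
        (∀ g x y, B (M.ρ g x) (M.ρ g y) = (κ g : K) * B x y) ∧
        finrank K M.V ≤ finrank K T.V) ∨
      (∃ B : M.V →ₗ[K] M.V →ₗ[K] K, (∀ x y, B x y = (-1 : K) * B y x) ∧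
        (∀ x, (∀ y, B x y = 0) → x = 0) ∧
        (∀ g x y, B (M.ρ g x) (M.ρ g y) = (κ g : K) * B x y) ∧
        finrank K M.V < finrank K T.V) ∨
      (2 * finrank K M.V ^ 2 < finrank K T.V * (finrank K T.V + 1))
  | .so _ => SmallLocO T M ∨
      (∃ B : M.V →ₗ[K] M.V →ₗ[K] K, (∀ x y, B x y = (1 : K) * B y x) ∧
        (∀ x, (∀ y, B x y = 0) → x = 0) ∧
        (∀ g x y, B (M.ρ g x) (M.ρ g y) = (κ g : K) * B x y) ∧
        finrank K M.V < finrank K T.V) ∨
      (∃ B : M.V →ₗ[K] M.V →ₗ[K] K, (∀ x y, B x y = (-1 : K) * B y x) ∧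
        (∀ x, (∀ y, B x y = 0) → x = 0) ∧
        (∀ g x y, B (M.ρ g x) (M.ρ g y) = (κ g : K) * B x y) ∧
        finrank K M.V + 1 < finrank K T.V) ∨
      (2 * finrank K M.V ^ 2 < finrank K T.V * (finrank K T.V - 1))

theorem MRep.exists_smallK {T : FRep K Γ} (o : MRep T) {M : FRep K Γ} (h : o.Small M) :
    ∃ κ, o.SmallK M κ := by
  cases o with
  | sp o =>
    rcases h with h1 | ⟨⟨μ, B, h1, h2, h3⟩, h4⟩ | ⟨⟨μ, B, h1, h2, h3⟩, h4⟩ | h1
    · exact ⟨1, Or.inl h1⟩
    · exact ⟨μ, Or.inr (Or.inl ⟨B, h1, h2, h3, h4⟩)⟩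
    · exact ⟨μ, Or.inr (Or.inr (Or.inl ⟨B, h1, h2, h3, h4⟩))⟩
    · exact ⟨1, Or.inr (Or.inr (Or.inr h1))⟩
  | so o =>
    rcases h with h1 | ⟨⟨μ, B, h1, h2, h3⟩, h4⟩ | ⟨⟨μ, B, h1, h2, h3⟩, h4⟩ | h1
    · exact ⟨1, Or.inl h1⟩
    · exact ⟨μ, Or.inr (Or.inl ⟨B, h1, h2, h3, h4⟩)⟩
    · exact ⟨μ, Or.inr (Or.inr (Or.inl ⟨B, h1, h2, h3, h4⟩))⟩
    · exact ⟨1, Or.inr (Or.inr (Or.inr h1))⟩

theorem good_smallK [IsAlgClosed K] {ι : Type} {N : ι → FRep K Γ} {t a c : ι} (o : MRep (N t))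
    {κ : Γ →* Kˣ} (h : o.SmallK (N a) κ) (mm : Mem N t) (hk : mm.IsO ↔ o.IsO)
    (hc : finrank K (N c).V = 1) (hc' : ∀ g (x : (N c).V), (N c).ρ g x = (κ g : K) • x) :
    Good N t a := by
  cases o with
  | sp o =>
    cases mm with
    | so m => exact (hk.1 trivial).elim
    | sp m =>
      rcases h with h1 | ⟨B, h1, h2, h3, h4⟩ | ⟨B, h1, h2, h3, h4⟩ | h1
      · exact good_of_loc m h1
      · exact m.good_of_sym ⟨B, fun g => (κ g : K), h3, c, hc, hc'⟩
          (fun x y => (h1 x y).trans (one_mul _)) h2 h4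
      · exact m.good_of_alt ⟨B, fun g => (κ g : K), h3, c, hc, hc'⟩
          (fun x y => (h1 x y).trans (neg_one_mul _)) h2 h4
      · refine m.good_of_sq ?_
        have h2 := Finset.sum_range_id_mul_two (finrank K (N t).V + 1)
        rw [Nat.add_sub_cancel] at h2
        have h3 : (finrank K (N t).V + 1) * finrank K (N t).V =
          finrank K (N t).V * (finrank K (N t).V + 1) := mul_comm _ _
        omega
  | so o =>
    cases mm with
    | sp m => exact (hk.2 trivial).elim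
    | so m =>
      rcases h with h1 | ⟨B, h1, h2, h3, h4⟩ | ⟨B, h1, h2, h3, h4⟩ | h1
      · exact good_of_locO m h1
      · exact m.good_of_sym ⟨B, fun g => (κ g : K), h3, c, hc, hc'⟩
          (fun x y => (h1 x y).trans (one_mul _)) h2 h4
      · exact m.good_of_alt ⟨B, fun g => (κ g : K), h3, c, hc, hc'⟩
          (fun x y => (h1 x y).trans (neg_one_mul _)) h2 h4
      · exact good_of_sqO m h1

/-- two members -/
theorem mem_good [IsAlgClosed K] {ι : Type} {N : ι → FRep K Γ} {t t' : ι} (o : Mem N t)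
    (o' : Mem N t') (hiso : ¬IsoUpTo (N t') (N t)) (hiso' : ¬IsoUpTo (N t) (N t'))
    (h1 : ¬o.IsO → o'.IsO →
      finrank K (N t').V = finrank K (N t).V + 1 → 5 < finrank K (N t').V)
    (h2 : o.IsO → ¬o'.IsO →
      finrank K (N t).V = finrank K (N t').V + 1 → 5 < finrank K (N t).V)
    (h8 : o.IsO → o'.IsO → finrank K (N t).V = 8 → finrank K (N t').V = 8 →
      SameLoc (N t) (N t')) : Good N t t' := by
  cases o with
  | sp a =>
    cases o' with
    | sp b => exact good_of_not_isoS a b hiso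
    | so b => exact good_mixed a b (h1 (fun h => h) trivial)
  | so a =>
    cases o' with
    | sp b => exact good_symm_so b a (good_mixed b a (h2 trivial fun h => h))
    | so b =>
      by_cases h8' : finrank K (N t).V = 8
      · by_cases h8'' : finrank K (N t').V = 8
        · exact good_of_same a b (h8 trivial trivial h8' h8'') hiso
        · exact a.good_symm b (b.good_of_not_iso a h8'' hiso')
      · exact a.good_of_not_iso b h8' hiso

theorem exists_mem [IsAlgClosed K] (e : K ≃+* ℂ) {ι : Type} {N : ι → FRep K Γ} {t c : ι}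
    (o : MRep (N t)) (hc : finrank K (N c).V = 1)
    (hc' : ∀ g (x : (N c).V), (N c).ρ g x = (o.μ g : K) • x) :
    ∃ m : Mem N t, m.B = o.B ∧ m.s = o.s ∧ (m.IsO ↔ o.IsO) := by
  cases o with
  | sp o =>
    obtain ⟨m, hm⟩ := exists_FulS_loc (N := N) (t := t) ⟨o.B, fun g => (o.μ g : K), o.eqv, c, hc,
      hc'⟩ o.sy o.nd o.si o.loc
    exact ⟨.sp m, congrArg Frm.B hm, rfl, Iff.rfl⟩
  | so o =>
    obtain ⟨m, hm⟩ := exists_Ful_locO e (N := N) (t := t) ⟨o.B, fun g => (o.μ g : K), o.eqv, c, hc,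
      hc'⟩ o.sy o.nd o.si o.dim o.loc
    exact ⟨.so m, congrArg Frm.B hm, rfl, Iff.rfl⟩

variable {A : Type} [Ring A] [Algebra K A] [FiniteDimensional K A] [IsAlgClosed K]

/-- The members are independent. -/
structure Indep {ι : Type} {T : ι → FRep K Γ} (hT : ∀ j, MRep (T j)) : Prop where
  iso : ∀ i j, i ≠ j → ¬IsoUpTo (T i) (T j)
  mixed : ∀ i j, ¬(hT i).IsO → (hT j).IsO → finrank K (T j).V = finrank K (T i).V + 1 →
    5 < finrank K (T j).V
  eight : ∀ i j, i ≠ j → (hT i).IsO → (hT j).IsO → finrank K (T i).V = 8 →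
    finrank K (T j).V = 8 → SameLoc (T i) (T j)

/-- **The main application.** -/
theorem kill_of_mixed (e : K ≃+* ℂ) {ι : Type} {m : ℕ} {T : ι → FRep K Γ}
    {M : Fin m → FRep K Γ} {χ : Γ →* Kˣ} {τ : Γ →* (A ≃ₐ[K] A)} {S : Set ι} (hS : S.Finite)
    (hgen : GenBy T M χ τ S) (hT : ∀ j, MRep (T j)) (hind : Indep hT) {i : ι} (hi : i ∉ S)
    (hM : ∀ a, (hT i).Small (M a)) (lam : Γ →* Kˣ) {R : Type} [Fintype R] [DecidableEq R]
    {h : MultilinearMap K (fun _ : R => (T i).V) A} (hh : Eqv (T i).ρ (algRep lam τ).ρ h)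
    (x y : (T i).V) : Kill (oo (hT i).B (hT i).s x y) h := by
  classical
  choose κ hκ using fun a => (hT i).exists_smallK (hM a)
  let N : Ix ι m → FRep K Γ := fam T M (fun j => (hT j).μ) κ χ lam τ
  have hmem : ∀ j, ∃ o : Mem N (Ix.t j), o.B = (hT j).B ∧ o.s = (hT j).s ∧
      (o.IsO ↔ (hT j).IsO) := fun j =>
    exists_mem e (N := N) (t := Ix.t j) (c := Ix.mu j) (hT j) (line_finrank _) (fun g x => rfl)
  choose o hoB hos hoI using hmem
  have hgoodT : ∀ j, j ≠ i → Good N (Ix.t i) (Ix.t j) := fun j hj =>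
    mem_good (o i) (o j) (hind.iso j i hj) (hind.iso i j hj.symm)
      (fun k1 k2 k3 => hind.mixed i j (fun h => k1 ((hoI i).2 h)) ((hoI j).1 k2) k3)
      (fun k1 k2 k3 => hind.mixed j i (fun h => k2 ((hoI j).2 h)) ((hoI i).1 k1) k3)
      (fun k1 k2 k3 k4 => hind.eight i j hj.symm ((hoI i).1 k1) ((hoI j).1 k2) k3 k4)
  have hgoodM : ∀ a, Good N (Ix.t i) (Ix.pc a) := fun a =>
    good_smallK (N := N) (t := Ix.t i) (a := Ix.pc a) (c := Ix.cf a) (hT i) (hκ a) (o i) (hoI i)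
      (line_finrank _) (fun g x => rfl)
  obtain ⟨D, hD, hD0, hDt⟩ := (o i).good_finset
    (hS.toFinset.image Ix.t ∪ (univ : Finset (Fin m)).image Ix.pc) (by
      intro a ha
      rcases Finset.mem_union.1 ha with ha | ha
      · obtain ⟨j, hj, rfl⟩ := Finset.mem_image.1 ha
        exact hgoodT j fun h => hi (h ▸ (hS.mem_toFinset.1 hj))
      · obtain ⟨a, -, rfl⟩ := Finset.mem_image.1 ha
        exact hgoodM a) x y
  have h1 := kill_of_op (D := D) hgen lam hh hD
    (fun j hj => hD0 _ (Finset.mem_union_left _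
      (Finset.mem_image.2 ⟨j, hS.mem_toFinset.2 hj, rfl⟩)))
    (fun a => hD0 _ (Finset.mem_union_right _ (Finset.mem_image.2 ⟨a, Finset.mem_univ _, rfl⟩)))
  have h3 : (D (Ix.t i) : Module.End K (T i).V) = oo (hT i).B (hT i).s x y := by
    rw [hDt, hoB, hos]
    rfl
  rw [h3] at h1
  exact h1

end

end Run7.h552.MX
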