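import Pool.Agent.Run7.h552.MX.CDefs

/-!
# Products of varieties with divisors
-/

set_option autoImplicit false

open CategoryTheory AlgebraicGeometry

universe u

namespace Run7.h552.MX.C

open Pool.Agent.H914 Pool.Agent.H914.VarClass Pool.Agent.H914.VarClass.Obj
  Pool.Agent.H914.WeilCohomology Pool.Agent.TH125.Gal Pool.Agent.H281R3.HT

variable {k : Type u} [Field k] {𝒱 : VarClass k} {ops : CycleOps 𝒱}
  {W : WeilCohomology.{u, 0} ops} {Γ : Type} [Group Γ] {ι : Type}

/-- The product of `n + 1` copies of `P` and of `Y`, with the sum of the pull-backs of the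
divisors. -/
noncomputable def powTow (ops : CycleOps 𝒱) (P : Polarized 𝒱) (n : ℕ) (Y : Polarized 𝒱) :
    Polarized 𝒱 := ((P.prod ops)^[n] P).prod ops Y

/-- The product `P i₁ ^ (n₁ + 1) × (P i₂ ^ (n₂ + 1) × (⋯ × Z))` for the list of the `(i, n)`, with the
sum of the pull-backs of the divisors. -/
noncomputable def towerOf (ops : CycleOps 𝒱) (P : ι → Polarized 𝒱) (Z : Polarized 𝒱)
    (L : List (ι × ℕ)) : Polarized 𝒱 :=
  L.foldr (fun a => powTow ops (P a.1) a.2) Z

end Run7.h552.MX.C
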