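import Pool.Agent.Run7.h552.MX.Twr
import Pool.Agent.Run7.h552.SF.Std
import Pool.Agent.Q71.TS.Stp
import Pool.Agent.TH132.A.Hodge

/-!
# The standard conjectures for towers over families of both parities
-/

open CategoryTheory AlgebraicGeometry Finset Function

set_option autoImplicit false
set_option linter.unusedSectionVars false

universe u v w

namespace Run7.h552.MX

open Pool.Agent Pool.Agent.H914 Pool.Agent.H914.VarClass Pool.Agent.H914.VarClass.Obj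
  Pool.Agent.H914.WeilCohomology Pool.Agent.H281R3.HT Pool.Agent.W552 Pool.Agent.TH125.Gal
  Pool.Agent.Y127 Pool.Agent.Y127.G Pool.Agent.Y95.ZT Run7.h552.CT Run7.h552.SF
  Pool.Agent.V11219.Loc Pool.Agent.H447

section hodge

variable {k : Type u} [Field k] {𝒱 : VarClass k} {ops : CycleOps 𝒱}
  {W : WeilCohomology.{u, v} ops}

theorem hodge_zero {B : 𝒱.Obj} (h : (1 : W.H B) = 0) (E : B.Cycles) : HodgeType W B E := by
  intro j _ z _ _ hz0
  exact absurd (by rw [← one_mul (W.cl B z), h, zero_mul]) hz0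

/-- **The conjecture of Hodge type, one step.** -/
theorem hodge_iff_step {A B : 𝒱.Obj} {D : A.Cycles} {n : ℕ} (h : Q71.TS.TStep W A D B n)
    {E : B.Cycles} (hE : B.IsCyc 1 E) (hHL : HardLefschetz W B E) :
    HodgeType W ((nest ops n fun _ => (⟨A, D⟩ : Polarized 𝒱)).prod ops ⟨B, E⟩).X
      ((nest ops n fun _ => (⟨A, D⟩ : Polarized 𝒱)).prod ops ⟨B, E⟩).D ↔
      HodgeType W B E := by
  by_cases hB1 : (1 : W.H B) = 0
  · refine iff_of_true (hodge_zero ?_ _) (hodge_zero hB1 _)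
    have h1 : (1 : W.H ((nest ops n fun _ => (⟨A, D⟩ : Polarized 𝒱)).X.prod B)) = 0 := by
      rw [← map_one (W.map (snd _ B)), hB1, map_zero]
    exact h1
  · obtain ⟨g, F⟩ := h.fp_nest hB1
    obtain ⟨s, hs⟩ := h.tgt
    obtain ⟨hP, hPL⟩ := h.nest_hard n
    obtain ⟨f₁, F₁, hf⟩ := TH132.A.exists_lw hP hPL
    obtain ⟨g₁, F', hg⟩ := TH132.A.exists_lw hE hHL
    have hst : TH132.A.Stable W _ f₁ := TH132.A.stable_of_lefschetzA F₁.hD F₁.sl2
      (lefschetzA_of_D F₁.hD hPL F.hodge.2)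
    exact ⟨fun h3 => TH132.A.hodge_of_prod F₁ F' F.hodge.1 h.nest_one_ne h3,
      fun h3 => TH132.A.hodge_prod_of (fun z hz => TH132.A.mem_tens F.hodge.2 hz
        (lspan_le (Q71.TS.tgt_lspan' h.homEqNum h.middle (hs n le_rfl z hz)))) F₁ hf hPL hst
        F.hodge.1 F' hg h3⟩

variable {ι : Type} {P : ι → Polarized 𝒱} {Z : Polarized 𝒱} {L : List (ι × ℕ)}

/-- **The conjecture of Hodge type for towers.** -/
theorem hodge_tower (h : Q71.TS.TSteps W P Z L) (hE : Z.X.IsCyc 1 Z.D)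
    (hHL : HardLefschetz W Z.X Z.D) :
    HodgeType W (tower' ops P Z L).X (tower' ops P Z L).D ↔ HodgeType W Z.X Z.D := by
  induction L with
  | nil => exact Iff.rfl
  | cons a L ih =>
    obtain ⟨hN, hL⟩ := h
    have h1 := Q71.TS.tower_hard hL hE hHL
    rw [← ih hL]
    exact hodge_iff_step hN h1.1 h1.2

end hodge

variable {k : Type u} [Field k] {𝒱 : VarClass k} {ops : CycleOps 𝒱}
  {W : WeilCohomology.{u, 0} ops} {Γ : Type} [Group Γ] {χ : Γ →* W.Kˣ}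
  {ι : Type} {X : ι → GVar W Γ} {Z : GVar W Γ} {G : Set (GVar W Γ)}

/-- the generation of the cohomology of the base -/
theorem Fam.genBy {h : Fam χ X} (hB : h.Base Z) (i : ι) : ∃ (m : ℕ) (M : Fin m → FRep W.K Γ),
    (∀ a, (h.rep i).Small (M a)) ∧ GenBy (fun j => trRep (h.galois j)) M χ Z.act ∅ := by
  obtain ⟨m, M, f, hM, hf, hgen⟩ := hB i
  refine ⟨m, M, hM, ?_⟩
  unfold GenBy
  rw [eq_top_iff, ← hgen]
  refine Algebra.adjoin_mono ?_
  rintro x (hx | hx)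
  · exact Or.inl hx
  · obtain ⟨a, y, rfl⟩ := Set.mem_iUnion.1 hx
    exact Or.inr (Or.inr ⟨a, f a, hf a, y, rfl⟩)

/-- The action on the towers. -/
theorem Fam.tower (h : Fam χ X) (hG : GaloisClass χ G) (hX : ∀ i, X i ∈ G) (hZ : Z ∈ G)
    (D : ∀ i, (X i).X.Cycles) (E : Z.X.Cycles) (L : List (ι × ℕ)) :
    ∃ υ : Γ →* (W.H (tower' ops (fun i => ⟨(X i).X, D i⟩) ⟨Z.X, E⟩ L).X ≃ₐ[W.K]
        W.H (tower' ops (fun i => ⟨(X i).X, D i⟩) ⟨Z.X, E⟩ L).X),
      (⟨(tower' ops (fun i => ⟨(X i).X, D i⟩) ⟨Z.X, E⟩ L).X, υ⟩ : GVar W Γ) ∈ G ∧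
      ∀ (m : ℕ) (M : Fin m → FRep W.K Γ), GenBy (fun j => trRep (h.galois j)) M χ Z.act ∅ →
        GenBy (fun j => trRep (h.galois j)) M χ υ {i | i ∈ L.map Prod.fst} := by
  induction L with
  | nil =>
    refine ⟨Z.act, hZ, fun m M hM => ?_⟩
    have e : {i : ι | i ∈ ([] : List (ι × ℕ)).map Prod.fst} = ∅ := by
      ext i
      simp
    rw [e]
    exact hM
  | cons a L ih =>
    obtain ⟨τ, hτ, hK⟩ := ih
    obtain ⟨υ, hυ, hP⟩ := exists_pow_act hG (hX a.1) hτ (D a.1) a.2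
    refine ⟨υ, hυ, fun m M hM => ?_⟩
    have e : {i : ι | i ∈ (a :: L).map Prod.fst} = insert a.1 {i | i ∈ L.map Prod.fst} := by
      ext i
      simp
    rw [e]
    exact genBy_pow h.galois (h.homEqNum a.1) (D a.1) (hK m M hM) hP

variable [IsAlgClosed W.K]

/-- **The Lie algebra kills the coordinates.** -/
theorem Fam.inv_stepD (e : W.K ≃+* ℂ) (h : Fam χ X) {S : Set ι} (hS : S.Finite) {i : ι}
    (hi : i ∉ S) {n : ℕ} {D : (X i).X.Cycles} {B : 𝒱.Obj} {τ : Γ →* (W.H B ≃ₐ[W.K] W.H B)}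
    {m : ℕ} {M : Fin m → FRep W.K Γ} (hM : ∀ a, (h.rep i).Small (M a))
    (hgb : GenBy (fun j => trRep (h.galois j)) M χ τ S)
    {υ : Γ →* (W.H ((nest ops n fun _ => (⟨(X i).X, D⟩ : Polarized 𝒱)).X.prod B) ≃ₐ[W.K]
      W.H ((nest ops n fun _ => (⟨(X i).X, D⟩ : Polarized 𝒱)).X.prod B))}
    (hP : IsPowAct W (⟨(X i).X, D⟩ : Polarized 𝒱) n B (X i).act τ υ)
    {s : SB W (X i).X}
    {b : Module.Basis (Fin (n + 1) → Fin s.NC ⊕ Fin s.NT) W.K
      (W.H (nest ops n fun _ => (⟨(X i).X, D⟩ : Polarized 𝒱)).X)}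
    (hb : ∀ r, b r = mono (prj ops n fun _ => (⟨(X i).X, D⟩ : Polarized 𝒱)) fun p => s.e (r p))
    {z : W.H ((nest ops n fun _ => (⟨(X i).X, D⟩ : Polarized 𝒱)).X.prod B)} {j : ℕ}
    {Δ : Subgroup Γ} (hΔ : Δ.FiniteIndex)
    (hz : ∀ g ∈ Δ, υ g z = (χ g : W.K) ^ j • z) (c₀ : Fin (n + 1) → Option (Fin s.NC)) :
    TH125.Nod.Inv (fun _ : Fin s.NT => ()) (Y127.gram (P := (⟨(X i).X, D⟩ : Polarized 𝒱)) s)
      (fun _ => (h.rep i).s) (fun r : Free c₀ → Fin s.NT =>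
        TH125.Gal.hS (P := (⟨(X i).X, D⟩ : Polarized 𝒱)) s b z c₀ fun l => s.uT (r l)) := by
  have hG : TH125.Gal.IsGalois W χ (X i).X (X i).act := isGalois (h.galois i)
  have h1 := hS_eqv (P := (⟨(X i).X, D⟩ : Polarized 𝒱)) hb hG hP hΔ hz c₀
  have h2 := fun x y => kill_of_mixed (A := W.H B) (T := fun j => trRep (h.galois j)) (M := M) e
    (χ := χ) (τ := τ) hS hgb h.rep h.indep hi hM
    (lamb (P := (⟨(X i).X, D⟩ : Polarized 𝒱)) χ s c₀ j)
    (h := TH125.Gal.hS (P := (⟨(X i).X, D⟩ : Polarized 𝒱)) s b z c₀) h1 x y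
  have hB' : (h.rep i).B = rform W (X i).X (transcendental W (X i).X) := by
    rcases Nat.even_or_odd (X i).X.dim with h3 | h3
    · exact (h.rep_even h3).2.1
    · exact (h.rep_odd h3).2.1
  rw [hB'] at h2
  exact inv_of_kill (s := (h.rep i).s) (B := rform W (X i).X (transcendental W (X i).X))
    (fun u w => h2 u w) s.uT

/-- **The algebraic classes on the products with powers.** -/
theorem Fam.tgt_of_alg (e : W.K ≃+* ℂ) (h : Fam χ X) (hG : GaloisClass χ G) {S : Set ι}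
    (hS : S.Finite) {i : ι} (hXi : X i ∈ G) (hi : i ∉ S) {B : 𝒱.Obj}
    {τ : Γ →* (W.H B ≃ₐ[W.K] W.H B)} (hτ : (⟨B, τ⟩ : GVar W Γ) ∈ G) {m : ℕ}
    {M : Fin m → FRep W.K Γ} (hM : ∀ a, (h.rep i).Small (M a))
    (hgb : GenBy (fun j => trRep (h.galois j)) M χ τ S) (D : (X i).X.Cycles) {n : ℕ}
    (hn : Even (X i).X.dim → n + 1 < transRank W (X i).X) :
    ∃ s : SB W (X i).X, ∀ q ≤ n,
      ∀ c : W.H ((nest ops q fun _ => (⟨(X i).X, D⟩ : Polarized 𝒱)).X.prod B),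
      W552.AS W _ c → c ∈ Tgt (P := ⟨(X i).X, D⟩) s q B := by
  rcases Nat.even_or_odd (X i).X.dim with he | hod
  · obtain ⟨s, o, R, ho, hR⟩ := h.sb he
    refine ⟨s, fun q hq c hc => ?_⟩
    obtain ⟨υ, hυ, hP⟩ := exists_pow_act (B := ⟨B, τ⟩) hG hXi hτ D q
    obtain ⟨b, hb⟩ := exists_monoBasis (ops := ops) (⟨(X i).X, D⟩ : Polarized 𝒱) s.e q
    have hgal := hG.galois _ hυ
    refine W552.AS.ind (p := fun c => c ∈ Tgt (P := ⟨(X i).X, D⟩) s q B) ?_ ?_ hc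
    · intro j c hc
      obtain ⟨Δ, hΔ, h1⟩ := hgal.cl_fix j c hc
      obtain ⟨Δ', hΔ', hfix⟩ := exists_fix (isGalois (h.galois i)) s
      have h2 : ∀ g ∈ Δ ⊓ Δ', υ g c = (χ g : W.K) ^ j • c := fun g hg => h1 g hg.1
      have hinv := fun c₀ => h.inv_stepD e hS hi hM hgb hP hb (z := c) (j := j) (Δ := Δ ⊓ Δ')
        inferInstance h2 c₀
      rw [(h.rep_even he).2.2] at hinv
      refine tgt_step (P := (⟨(X i).X, D⟩ : Polarized 𝒱)) (ε := fun _ => 1) (Δ := Δ ⊓ Δ')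
        (j := j) hb (h.middle i) (isGalois (h.galois i)) hP he hR ho
        (fun g hg a => hfix g hg.2 a) (alg_gr hc)
        (fun g hg => by rw [one_mul]; exact h2 g hg) hinv rfl (Or.inl ?_)
      have h3 := hn he
      unfold transRank at h3
      rw [Module.finrank_eq_card_basis s.uT, Fintype.card_fin] at h3
      omega
    · intro x y hx hy
      exact Submodule.add_mem _ hx hy
  · obtain ⟨s⟩ := exists_SB (h.homEqNum i)
    have hsk : ∀ x y : transcendental W (X i).X, rform W (X i).X (transcendental W (X i).X) x y =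
        (-1 : W.K) * rform W (X i).X (transcendental W (X i).X) y x := fun x y =>
      (tr_sk (h.middle i) hod x y).trans (neg_one_mul _).symm
    obtain ⟨R, hR⟩ := exists_inv_gram (s := (-1 : W.K))
      (B := rform W (X i).X (transcendental W (X i).X)) hsk (trans_nondeg (h.homEqNum i)) s.uT
    refine ⟨s, fun q hq c hc => ?_⟩
    obtain ⟨υ, hυ, hP⟩ := exists_pow_act (B := ⟨B, τ⟩) hG hXi hτ D q
    obtain ⟨b, hb⟩ := exists_monoBasis (ops := ops) (⟨(X i).X, D⟩ : Polarized 𝒱) s.e q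
    have hgal := hG.galois _ hυ
    refine W552.AS.ind (p := fun c => c ∈ Tgt (P := ⟨(X i).X, D⟩) s q B) ?_ ?_ hc
    · intro j c hc
      obtain ⟨Δ, hΔ, h1⟩ := hgal.cl_fix j c hc
      refine tgt_sk (P := (⟨(X i).X, D⟩ : Polarized 𝒱)) hb (h.middle i) hod hR fun c₀ => ?_
      have h2 := h.inv_stepD e hS hi hM hgb hP hb hΔ h1 c₀
      rwa [(h.rep_odd hod).2.2] at h2
    · intro x y hx hy
      exact Submodule.add_mem _ hx hy

/-- **All steps.** -/
theorem Fam.tsteps (e : W.K ≃+* ℂ) (h : Fam χ X) (hB : h.Base Z) (hG : GaloisClass χ G)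
    (hXG : ∀ i, X i ∈ G) (hZ : Z ∈ G) {D : ∀ i, (X i).X.Cycles}
    (hpol : ∀ i, IsPolarization W (X i).X (D i))
    (E : Z.X.Cycles) (L : List (ι × ℕ)) (hL : (L.map Prod.fst).Nodup)
    (hn : ∀ a ∈ L, Even (X a.1).X.dim → a.2 + 1 < transRank W (X a.1).X) :
    Q71.TS.TSteps W (fun i => (⟨(X i).X, D i⟩ : Polarized 𝒱)) ⟨Z.X, E⟩ L := by
  induction L with
  | nil => exact trivial
  | cons a L ih =>
    rw [List.map_cons, List.nodup_cons] at hL
    refine ⟨?_, ih hL.2 fun b hb => hn b (List.mem_cons_of_mem _ hb)⟩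
    obtain ⟨m, M, hM, hgen⟩ := Fam.genBy hB a.1
    obtain ⟨υ, hυ, hgb⟩ := h.tower hG hXG hZ D E L
    exact ⟨hpol a.1, h.middle a.1, h.one_ne a.1, h.tgt_of_alg e hG (L.map Prod.fst).finite_toSet
      (hXG a.1) hL.1 hυ hM (hgb m M hgen) (D a.1) (hn a List.mem_cons_self)⟩

end Run7.h552.MX
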