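import Pool.Agent.Run7.h552.MX.CSys
import Pool.Agent.Run7.h552.MX.CTow
import Pool.Agent.Run7.h552.MX.Std
import Pool.Agent.Run7.h552.SF.QCnv

/-!
# The compact definitions
-/

set_option autoImplicit false
set_option linter.unusedSectionVars false

open CategoryTheory AlgebraicGeometry

universe u

namespace Run7.h552.MX

open Pool.Agent Pool.Agent.H914 Pool.Agent.H914.VarClass Pool.Agent.H914.VarClass.Obj
  Pool.Agent.H914.WeilCohomology Pool.Agent.H281R3.HT Pool.Agent.W552 Pool.Agent.TH125.Gal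
  Pool.Agent.Y127 Pool.Agent.Y127.G Pool.Agent.Y95.ZT Run7.h552.CT Run7.h552.SF

section Alg

variable {K : Type} [Field K] {A : Type} [Ring A] [Algebra K A]
  {B : Type} [Ring B] [Algebra K B] {Γ : Type} [Group Γ]

theorem dm_eq (T : Submodule K A) : C.dm K (T : Set A) = Module.finrank K T := by
  rw [C.dm, Submodule.span_eq]

theorem df_eq (ρ : C.Act K A Γ) (g : Γ) (x : A) : C.df ρ g x = V11219.Min.dif ρ g x := rfl

theorem rk_eq (ρ : C.Act K A Γ) (T : Submodule K A) (g : Γ) :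
    C.rk ρ (T : Set A) g = Module.finrank K (T.map (V11219.Min.dif ρ g)) := by
  have h1 : (C.df ρ g '' (T : Set A)) = (T.map (V11219.Min.dif ρ g) : Set A) := by
    ext y
    simp only [Set.mem_image, SetLike.mem_coe, Submodule.mem_map]
    rfl
  rw [C.rk, h1, dm_eq]

theorem quad_iff {ρ : C.Act K A Γ} {T : Submodule K A} {g : Γ} :
    C.Quad ρ (T : Set A) g ↔ V11219.Min.Quad T ρ g := by
  refine forall_congr' fun x => forall_congr' fun _ => ?_
  exact sub_eq_zero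

theorem isDefect_iff [FiniteDimensional K A] {ρ : C.Act K A Γ} {T : Submodule K A} {g : Γ}
    {d : ℕ} :
    C.IsDefect ρ (T : Set A) g d ↔ V11219.Min.IsDefect T ρ {g | V11219.Min.Quad T ρ g} g d := by
  unfold C.IsDefect V11219.Min.IsDefect
  rw [rk_eq]
  refine or_congr Iff.rfl (exists_congr fun g' => ?_)
  have h1 : ∀ a : K, C.dm K {x | x ∈ (T : Set A) ∧ ∃ n : ℕ,
      (fun y => C.df ρ g (C.df ρ g' y) - a • y)^[n] x = 0} =
      Module.finrank K (T ⊓ Module.End.maxGenEigenspace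
        (V11219.Min.dif ρ g * V11219.Min.dif ρ g') a : Submodule K A) := by
    intro a
    have h2 : {x | x ∈ (T : Set A) ∧ ∃ n : ℕ,
        (fun y => C.df ρ g (C.df ρ g' y) - a • y)^[n] x = 0} =
        ((T ⊓ Module.End.maxGenEigenspace
          (V11219.Min.dif ρ g * V11219.Min.dif ρ g') a : Submodule K A) : Set A) := by
      ext x
      simp only [Set.mem_ofPred_eq, SetLike.mem_coe, Submodule.mem_inf]
      refine and_congr Iff.rfl ?_
      rw [Module.End.mem_maxGenEigenspace]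
      refine exists_congr fun n => ?_
      rw [Module.End.pow_apply]
      rfl
    rw [h2, dm_eq]
  constructor
  · rintro ⟨h2, a, h3, h4⟩
    exact ⟨quad_iff.1 h2, quad_iff.1 h2, a, h3, h4.trans (h1 a)⟩
  · rintro ⟨-, h2, a, h3, h4⟩
    exact ⟨quad_iff.2 h2, a, h3, h4.trans (h1 a).symm⟩

theorem smallDefects_of [FiniteDimensional K A] {ρ : C.Act K A Γ} {T : Submodule K A}
    (h : C.SmallDefects ρ T) :
    V11219.Min.SmallDefects T ρ {g | V11219.Min.Quad T ρ g} := by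
  rcases h with ⟨g, h1, h2⟩ | ⟨⟨g, h1, h2⟩, h3⟩
  · refine Or.inl ⟨g, quad_iff.1 h1, ?_⟩
    rcases h2 with h2 | h2
    · left
      intro p hp
      obtain ⟨d, h4, h5⟩ := h2 p hp
      exact ⟨d, isDefect_iff.1 h4, h5⟩
    · exact Or.inr (isDefect_iff.1 h2)
  · refine Or.inr ⟨⟨g, quad_iff.1 h1, h2⟩, fun p hp => ?_⟩
    obtain ⟨g, h1, d, h4, h5⟩ := h3 p hp
    exact ⟨g, quad_iff.1 h1, d, isDefect_iff.1 h4, h5⟩

variable [FiniteDimensional K A] [FiniteDimensional K B]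

theorem slopesOn_of {v : Additive Kˣ →+ ℚ} {F : Γ} {ρ : C.Act K A Γ} {U : Submodule K A}
    {s : Multiset ℚ} (h : C.SlopesOn v F ρ U s) : SF.P.SlopesOn v F ρ U s := by
  obtain ⟨f, h1, h2⟩ := h
  have hU : ∀ x ∈ U, (AlgEquiv.toLinearMap ((show Γ →* (A ≃ₐ[K] A) from ρ) F)) x ∈ U := by
    intro x hx
    have h3 := (f ⟨x, hx⟩).2
    rw [h1] at h3
    exact h3
  refine ⟨hU, ?_⟩
  rw [← h2]
  congr 1
  apply LinearMap.ext
  intro x
  apply Subtype.ext
  exact (h1 x).symm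

theorem localSp_of {ρ : C.Act K A Γ} {T : Submodule K A}
    (h : (∃ v F s, C.SlopesOn v F ρ T s ∧ C.SlopeType ρ T s) ∨ C.SmallDefects ρ T) :
    SF.P.LocalType ρ T := by
  rcases h with ⟨v, F, s, h1, h2⟩ | h
  · refine Or.inl ⟨v, F, s, slopesOn_of h1, ?_⟩
    rcases h2 with h2 | ⟨s', h', c, h3, h4⟩
    · exact Or.inl h2
    · refine Or.inr ⟨s', h', c, h3, h4.imp_right ?_⟩
      rintro ⟨q, h5, h6, h7⟩
      rw [dm_eq] at h5
      exact ⟨q, h5, h6, h7.imp_right fun h8 h9 => h8 (SF.tensorType_of h9)⟩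
  · exact Or.inr (smallDefects_of h)

theorem twistIso_of' {ρ : C.Act K A Γ} {T : Submodule K A} {ρ' : C.Act K B Γ}
    {U : Submodule K B} (hT : ∀ g, ∀ x ∈ T, C.ap ρ g x ∈ T) (h : Y127.G.TwistIso ρ T ρ' U) :
    C.TwistIso ρ T ρ' U :=
  SF.twistIso_of (ρ := ρ) (ρ' := ρ') hT h

theorem formOn_of' {ρ : C.Act K A Γ} {U : Submodule K A} {s : K}
    (h : C.FormOn ρ (U : Set A) s) : Y127.G.FormOn ρ U s :=
  SF.formOn_of (ρ := ρ) h

section rep

variable {ρ : C.Act K A Γ} {T : Submodule K A} {ρT : Γ →* (T →ₗ[K] T)}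
  (hρ : ∀ g x, (ρT g x : A) = C.ap ρ g x)

include hρ

theorem df_coe (g : Γ) (x : T) : ((ρT g - 1 : Module.End K T) x : A) = C.df ρ g x :=
  SF.dif_coe (ρ := ρ) hρ g x

theorem rk_coe (g : Γ) :
    Module.finrank K (LinearMap.range (ρT g - 1 : Module.End K T)) = C.rk ρ (T : Set A) g := by
  rw [rk_eq]
  exact SF.range_dif (ρ := ρ) hρ g

theorem quad_coe {g : Γ} (h : C.Quad ρ (T : Set A) g) : (ρT g - 1) ^ 2 = 0 := by
  apply LinearMap.ext
  intro x
  apply Subtype.ext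
  rw [pow_two, Module.End.mul_apply, df_coe hρ, df_coe hρ]
  exact h x x.2

theorem maximal_coe {g : Γ} (h : C.Maximal ρ (T : Set A) g) :
    Q71.TM.LocRep (⟨T, ρT⟩ : FRep K Γ) (.inertia g) := by
  obtain ⟨h1, ⟨x, hx, h2⟩, h3⟩ := h
  refine ⟨?_, ?_, ?_⟩
  · apply LinearMap.ext
    intro x
    apply Subtype.ext
    change (((ρT g - 1 : Module.End K T) ^ 3) x : A) = 0
    rw [pow_succ, pow_two, Module.End.mul_apply, Module.End.mul_apply, df_coe hρ, df_coe hρ,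
      df_coe hρ]
    exact h1 x x.2
  · intro h4
    apply h2
    have h5 := LinearMap.congr_fun h4 (⟨x, hx⟩ : T)
    have h6 : (((ρT g - 1 : Module.End K T) ^ 2) (⟨x, hx⟩ : T) : A) = 0 :=
      congrArg Subtype.val h5
    rw [pow_two, Module.End.mul_apply, df_coe hρ, df_coe hρ] at h6
    exact h6
  · exact (rk_coe hρ g).trans h3

end rep

theorem smallO_of {n : ℕ} (hn : Even n) {ρ : C.Act K A Γ} {T : Submodule K A}
    {ρT : Γ →* (T →ₗ[K] T)} (hρ : ∀ g x, (ρT g x : A) = C.ap ρ g x) {ρ' : C.Act K B Γ}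
    {U : Submodule K B} (hU : ∀ g, ∀ x ∈ U, C.ap ρ' g x ∈ U) (h : C.SmallFor n ρ T ρ' U) :
    SmallRelO (⟨T, ρT⟩ : FRep K Γ) (Y95.ZT.subRep ρ' U hU) := by
  let ρU : Γ →* (U →ₗ[K] U) := (Y95.ZT.subRep ρ' U hU).ρ
  have hρ' : ∀ g (x : U), ((ρU g x : U) : B) = C.ap ρ' g x := fun g x => rfl
  have key : ∀ s : K, Y127.G.FormOn ρ' U s → HasForm s (Y95.ZT.subRep ρ' U hU) := by
    rintro s ⟨μ, B, h3, h4, h5⟩
    refine ⟨μ, B.domRestrict₁₂ U U, fun (x y : U) => h3 x x.2 y y.2, fun (x : U) hx => ?_,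
      fun g (x y : U) => h5 g x x.2 y y.2⟩
    exact Subtype.ext (h4 x x.2 fun y hy => hx ⟨y, hy⟩)
  have hno : ¬Odd n := Nat.not_odd_iff_even.2 hn
  obtain ⟨e, he, h⟩ := h
  have he1 : e = 1 := by
    obtain ⟨m, rfl⟩ := hn
    omega
  rw [he1] at h
  rw [dm_eq, dm_eq] at h
  rcases h with ⟨v, F, s, s', δ, h1, h2, h3⟩ | ⟨g, h1, ⟨h2, -⟩ | ⟨-, h2, h3⟩⟩ | ⟨h1, h2⟩ |
    ⟨h1, h2⟩ | h1
  · refine Or.inl (Or.inl ⟨v, F, δ, ?_⟩)
    have e1 := SF.slopes_of (ρ := ρ) hρ (slopesOn_of h1)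
    have e2 := SF.slopes_of (ρ := ρ') (ρT := ρU) hρ' (slopesOn_of h2)
    have e1' : slopes v ((⟨T, ρT⟩ : FRep K Γ).ρ F) = s := e1
    rw [e1']
    have e2' : slopes v ((Y95.ZT.subRep ρ' U hU).ρ F) = s' := e2
    rw [e2']
    rwa [one_mul] at h3
  · exact absurd h2 hno
  · refine Or.inl (Or.inr (Or.inr (Or.inl ⟨g, maximal_coe hρ h2, quad_coe (ρT := ρU) hρ' h1, ?_⟩)))
    have e2 := rk_coe (ρT := ρU) hρ' g
    rw [← e2] at h3
    exact h3
  · exact Or.inr (Or.inl ⟨key _ (formOn_of' h1), h2⟩)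
  · exact Or.inr (Or.inr (Or.inl ⟨key _ (formOn_of' h1), h2⟩))
  · refine Or.inr (Or.inr (Or.inr ?_))
    change 2 * Module.finrank K U ^ 2 < Module.finrank K T * (Module.finrank K T - 1)
    rcases Nat.eq_zero_or_pos (Module.finrank K T) with h4 | h4
    · rw [h4] at h1
      omega
    · obtain ⟨m, hm⟩ := Nat.exists_eq_succ_of_ne_zero h4.ne'
      rw [hm] at h1 ⊢
      rw [Nat.succ_sub_one]
      have h5 : m.succ * (m.succ + 1) = m.succ * m + 2 * m.succ := by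
        rw [Nat.succ_eq_add_one]; ring
      omega

theorem smallS_of {n : ℕ} (hn : Odd n) {ρ : C.Act K A Γ} {T : Submodule K A}
    {ρT : Γ →* (T →ₗ[K] T)} (hρ : ∀ g x, (ρT g x : A) = C.ap ρ g x) {ρ' : C.Act K B Γ}
    {U : Submodule K B} (hU : ∀ g, ∀ x ∈ U, C.ap ρ' g x ∈ U) (h : C.SmallFor n ρ T ρ' U) :
    SmallRel (⟨T, ρT⟩ : FRep K Γ) (Y95.ZT.subRep ρ' U hU) := by
  have hne : ¬Even n := Nat.not_even_iff_odd.2 hn
  refine SF.small_of (ρ := ρ) hρ (ρ' := ρ') hU ?_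
  obtain ⟨e, he, h⟩ := h
  have he1 : e = 0 := by
    obtain ⟨m, rfl⟩ := hn
    omega
  rw [he1] at h
  rw [dm_eq, dm_eq] at h
  rcases h with ⟨v, F, s, s', δ, h1, h2, h3⟩ | ⟨g, h1, ⟨-, h2, h3⟩ | ⟨h2, -⟩⟩ | ⟨h1, h2⟩ |
    ⟨h1, h2⟩ | h1
  · refine Or.inl ⟨v, F, s, s', δ, slopesOn_of h1, slopesOn_of h2, ?_⟩
    rwa [zero_mul, add_zero] at h3
  · refine Or.inr (Or.inl ⟨g, quad_iff.1 h2, quad_iff.1 h1, ?_⟩)
    rw [rk_eq, rk_eq] at h3
    exact h3
  · exact absurd h2 hne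
  · exact Or.inr (Or.inr (Or.inl ⟨formOn_of' h1, h2⟩))
  · exact Or.inr (Or.inr (Or.inr (Or.inl ⟨formOn_of' h1, h2⟩)))
  · refine Or.inr (Or.inr (Or.inr (Or.inr ?_)))
    simpa using h1

end Alg

variable {k : Type u} [Field k] {𝒱 : VarClass k} {ops : CycleOps 𝒱}
  {W : WeilCohomology.{u, 0} ops} {Γ : Type} [Group Γ] {χ : Γ →* W.Kˣ}
  {ι : Type} {X : ι → GVar W Γ} {G : Set (GVar W Γ)} {D : ∀ i, (X i).X.Cycles} {Z : GVar W Γ}

theorem bigLocO_of {A : GVar W Γ} (hG : GaloisType χ A)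
    (h : (∃ v F p q h c, 0 < c ∧ C.LvNum p q ∧
      C.SlopesOn v F A.act (transcendental W A.X) (Level p q h c)) ∨
      ∃ g, C.Maximal A.act (transcendental W A.X : Set (W.H A.X)) g) : BigLocO (trRep hG) := by
  rcases h with ⟨v, F, p, q, h, c, hc, hn, h1⟩ | ⟨g, h1⟩
  · exact Or.inl ⟨v, F, p, q, h, c, hc, hn,
      SF.slopes_of (ρT := rhoT (isGalois hG)) (fun g x => rfl) (slopesOn_of h1)⟩
  · exact Or.inr (Or.inr ⟨g, maximal_coe (ρT := rhoT (isGalois hG)) (fun g x => rfl) h1⟩)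

/-- a polarization gives the conjecture D -/
theorem C.Polarization.pol {A : 𝒱.Obj} {E : A.Cycles} (h : C.Polarization W A E) :
    IsPolarization W A E :=
  ⟨h.1, h.2.1, h.2.2.1, h.2.2.2⟩

theorem prodVar_of {A B : GVar W Γ} {Y : 𝒱.Obj} (υ : Γ →* (W.H Y ≃ₐ[W.K] W.H Y))
    (h : Y = A.X.prod B.X)
    (h1 : C.Equivariant (A := ⟨Y, υ⟩) (B := A) (eqToHom h ≫ fst A.X B.X))
    (h2 : C.Equivariant (A := ⟨Y, υ⟩) (B := B) (eqToHom h ≫ snd A.X B.X)) :
    IsProdVar A B ⟨Y, υ⟩ := by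
  subst h
  rw [eqToHom_refl, Category.id_comp] at h1 h2
  exact IsProdVar.mk υ h1 h2

/-- the class of varieties -/
theorem C.Family.galoisClass (h : C.Family χ G X Z) : GaloisClass χ G where
  galois := fun A hA => (h.good A hA).1
  prod := by
    intro A hA B hB
    obtain ⟨⟨Y, υ⟩, hC, h1, h2, h3⟩ := (h.good A hA).2 B hB
    exact ⟨_, hC, prodVar_of υ h1 h2 h3⟩

theorem C.Family.gal (h : C.Family χ G X Z) (i : ι) : Y127.GaloisType χ (X i) :=
  (h.good _ (h.mem i)).1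

/-- the family -/
theorem C.Family.fam (h : C.Family χ G X Z) (hD : ∀ i, HomEqNum W (X i).X) : Fam χ X where
  galois := h.gal
  homEqNum := hD
  middle := fun i => (h.member i).1
  irreducible := fun i => (h.member i).2.1
  lsp := by
    intro i ho
    rcases (h.member i).2.2 with ⟨-, h1⟩ | ⟨h1, -⟩
    · exact bigLoc_of (h.gal i) (localSp_of h1)
    · exact absurd ho (Nat.not_odd_iff_even.2 h1)
  lso := by
    intro i he
    rcases (h.member i).2.2 with ⟨h1, -⟩ | ⟨-, h1, h2⟩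
    · exact absurd he (Nat.not_even_iff_odd.2 h1)
    · rw [dm_eq] at h1
      exact ⟨h1, bigLocO_of (h.gal i) h2⟩
  notIso := fun i j hij h1 => (h.distinct i j hij).1 (twistIso_of'
    (fun g x hx => (rhoT (isGalois (h.gal i)) g ⟨x, hx⟩).2) h1)
  mixed := by
    intro i j h1 h2 h3
    have hij : i ≠ j := by
      rintro rfl
      exact absurd h1 (Nat.not_odd_iff_even.2 h2)
    exact (h.distinct i j hij).2.1 h1 h2 h3
  eight := by
    intro i j hij h1 h2 h3 h4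
    exact absurd ⟨h1, h2, h3, h4⟩ (h.distinct i j hij).2.2

/-- the base -/
theorem C.Family.bas (h : C.Family χ G X Z) (hD : ∀ i, HomEqNum W (X i).X) :
    (h.fam hD).Base Z := by
  intro i
  obtain ⟨r, U, h1, h2, h3⟩ := h.base i
  refine ⟨r, fun a => Y95.ZT.subRep Z.act (U a) (h2 a), fun a => (U a).subtype, fun a => ?_,
    fun a g x => rfl, ?_⟩
  · rcases Nat.even_or_odd (X i).X.dim with he | ho
    · have h4 := smallO_of he (ρT := rhoT (isGalois (h.gal i))) (fun g x => rfl) (h2 a) (h1 a)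
      unfold Fam.rep
      rw [dif_neg (Nat.not_odd_iff_even.2 he)]
      exact h4
    · have h4 := smallS_of ho (ρT := rhoT (isGalois (h.gal i))) (fun g x => rfl) (h2 a) (h1 a)
      unfold Fam.rep
      rw [dif_pos ho]
      exact h4
  · rw [← h3]
    congr 2
    refine Set.iUnion_congr fun a => ?_
    change Set.range ((U a).subtype) = _
    rw [Submodule.coe_subtype, Subtype.range_coe_subtype]
    rfl

theorem iter_eq (P : Polarized 𝒱) (n : ℕ) :
    (Polarized.prod ops P)^[n] P = nest ops n fun _ => P := by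
  induction n with
  | zero => rfl
  | succ n ih =>
    rw [Function.iterate_succ_apply', ih]
    rfl

theorem iterX_eq (P : Polarized 𝒱) (n : ℕ) :
    (Obj.prod P.X)^[n] P.X = (nest ops n fun _ => P).X := by
  induction n with
  | zero => rfl
  | succ n ih =>
    rw [Function.iterate_succ_apply', ih]
    rfl

theorem ctower_eq (P : ι → Polarized 𝒱) (Z : Polarized 𝒱) (L : List (ι × ℕ)) :
    C.towerOf ops P Z L = tower' ops P Z L := by
  induction L with
  | nil => rfl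
  | cons a L ih =>
    rw [tower', ← ih, ← iter_eq]
    rfl

theorem prodOf_eq (D : ∀ i, (X i).X.Cycles) (E : Z.X.Cycles) (L : List (ι × ℕ)) :
    C.prodOf X Z L = (tower' ops (fun i => ⟨(X i).X, D i⟩) ⟨Z.X, E⟩ L).X := by
  induction L with
  | nil => rfl
  | cons a L ih =>
    change ((Obj.prod (X a.1).X)^[a.2] (X a.1).X).prod (C.prodOf X Z L) = _
    rw [ih, iterX_eq (ops := ops) (⟨(X a.1).X, D a.1⟩ : Polarized 𝒱)]
    rfl

variable [IsAlgClosed W.K]

/-- all steps -/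
theorem C.Family.tsteps (e : W.K ≃+* ℂ) (h : C.Family χ G X Z)
    (hP : ∀ i, C.Polarization W (X i).X (D i)) (E : Z.X.Cycles)
    {L : List (ι × ℕ)} (hL : C.Admissible X L) :
    Q71.TS.TSteps W (fun i => (⟨(X i).X, D i⟩ : Polarized 𝒱)) ⟨Z.X, E⟩ L :=
  have hD := fun i => V11219.Loc.homEqNum_of_pol (hP i).pol
  (h.fam hD).tsteps e (h.bas hD) h.galoisClass h.mem h.mem_base (fun i => (hP i).pol) E L hL.1
    hL.2

/-- **The conjecture D.** -/
theorem C.Family.homEqNum_iff (e : W.K ≃+* ℂ) (h : C.Family χ G X Z) (hP : C.Polarizable X)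
    {L : List (ι × ℕ)} (hL : C.Admissible X L) :
    HomEqNum W (C.prodOf X Z L) ↔ HomEqNum W Z.X := by
  choose D hD using hP
  rw [prodOf_eq D 0]
  exact Q71.TS.homEqNum_tower (h.tsteps e hD 0 hL)

/-- **The conjecture of Hodge type.** -/
theorem C.Family.hodge_iff (e : W.K ≃+* ℂ) (h : C.Family χ G X Z)
    (hP : ∀ i, C.Polarization W (X i).X (D i)) {E : Z.X.Cycles}
    (hE : Z.X.IsCyc 1 E) (hHL : HardLefschetz W Z.X E) {L : List (ι × ℕ)}
    (hL : C.Admissible X L) :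
    HodgeType W (C.towerOf ops (fun i => ⟨(X i).X, D i⟩) ⟨Z.X, E⟩ L).X
      (C.towerOf ops (fun i => ⟨(X i).X, D i⟩) ⟨Z.X, E⟩ L).D ↔ HodgeType W Z.X E := by
  rw [ctower_eq]
  exact hodge_tower (h.tsteps e hP E hL) hE hHL

/-- **The conjecture A for the sum of the divisors.** -/
theorem C.Family.lefschetzA_iff (e : W.K ≃+* ℂ) (h : C.Family χ G X Z)
    (hP : ∀ i, C.Polarization W (X i).X (D i)) {E : Z.X.Cycles}
    (hE : Z.X.IsCyc 1 E) (hHL : HardLefschetz W Z.X E) {L : List (ι × ℕ)}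
    (hL : C.Admissible X L) :
    LefschetzA W (C.towerOf ops (fun i => ⟨(X i).X, D i⟩) ⟨Z.X, E⟩ L).X
      (C.towerOf ops (fun i => ⟨(X i).X, D i⟩) ⟨Z.X, E⟩ L).D ↔ LefschetzA W Z.X E := by
  rw [ctower_eq]
  exact Q71.TS.lefschetzA_tower (h.tsteps e hP E hL) hE hHL

/-- **The conjecture A for all divisors.** -/
theorem C.Family.lefAll_iff (e : W.K ≃+* ℂ) (h : C.Family χ G X Z) (hP : C.Polarizable X)
    {L : List (ι × ℕ)} (hL : C.Admissible X L) :
    LefAll W (C.prodOf X Z L) ↔ LefAll W Z.X := by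
  choose D hD using hP
  rw [prodOf_eq D 0]
  exact Q71.TS.lefAll_tower (h.tsteps e hD 0 hL)

end Run7.h552.MX
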