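import Mathlib

/-!
# Slopes of level two
-/

set_option autoImplicit false

namespace Run7.h552.MX

/-- The numbers `h + c`, `h`, `h - c` with the multiplicities `p`, `q`, `p`. -/
def Level (p q : ℕ) (h c : ℚ) : Multiset ℚ :=
  Multiset.replicate p (h + c) + Multiset.replicate q h + Multiset.replicate p (h - c)

end Run7.h552.MX
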