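import Pool.Agent.Run7.h552.MX.CDefs

/-!
# Products of varieties
-/

set_option autoImplicit false

open CategoryTheory AlgebraicGeometry

universe u

namespace Run7.h552.MX.C

open Pool.Agent.H914 Pool.Agent.H914.VarClass Pool.Agent.H914.VarClass.Obj
  Pool.Agent.H914.WeilCohomology Pool.Agent.TH125.Gal

variable {k : Type u} [Field k] {𝒱 : VarClass k} {ops : CycleOps 𝒱}
  {W : WeilCohomology.{u, 0} ops} {Γ : Type} [Group Γ] {ι : Type}

/-- The varieties `X i` have polarizations. -/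
def Polarizable (X : ι → GVar W Γ) : Prop := ∀ i, ∃ D, Polarization W (X i).X D

/-- The product of `n + 1` copies of `A` and of `Y`. -/
noncomputable def powTimes (A : 𝒱.Obj) (n : ℕ) (Y : 𝒱.Obj) : 𝒱.Obj := (A.prod^[n] A).prod Y

/-- The product `X i₁ ^ (n₁ + 1) × (X i₂ ^ (n₂ + 1) × (⋯ × Z))` for the list of the `(i, n)`. -/
noncomputable def prodOf (X : ι → GVar W Γ) (Z : GVar W Γ) (L : List (ι × ℕ)) : 𝒱.Obj :=
  L.foldr (fun a => powTimes (X a.1).X a.2) Z.X

end Run7.h552.MX.C
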