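import Pool.Agent.Run7.h552.MX.CTate
import Pool.Agent.Run7.h552.MX.CCnv

/-!
# The Tate conjecture for towers
-/

set_option autoImplicit false
set_option linter.unusedSectionVars false

open CategoryTheory AlgebraicGeometry

universe u

namespace Run7.h552.MX

open Pool.Agent Pool.Agent.H914 Pool.Agent.H914.VarClass Pool.Agent.H914.VarClass.Obj
  Pool.Agent.H914.WeilCohomology Pool.Agent.H281R3.HT Pool.Agent.W552 Pool.Agent.TH125.Gal
  Pool.Agent.Y127 Pool.Agent.Y127.G Pool.Agent.Y95.ZT Run7.h552.CT Run7.h552.SF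

variable {k : Type u} [Field k] {𝒱 : VarClass k} {ops : CycleOps 𝒱}
  {W : WeilCohomology.{u, 0} ops} {Γ : Type} [Group Γ] {χ : Γ →* W.Kˣ}
  {ι : Type} {X : ι → GVar W Γ} {Z : GVar W Γ}

/-- the family -/
theorem C.TateFamily.fam (h : C.TateFamily χ X Z) : Fam χ X where
  galois := h.galois
  homEqNum := h.homEqNum
  middle := fun i => (h.member i).1
  irreducible := fun i => (h.member i).2.1
  lsp := by
    intro i ho
    rcases (h.member i).2.2 with ⟨-, h1⟩ | ⟨h1, -⟩
    · exact bigLoc_of (h.galois i) (localSp_of h1)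
    · exact absurd ho (Nat.not_odd_iff_even.2 h1)
  lso := by
    intro i he
    rcases (h.member i).2.2 with ⟨h1, -⟩ | ⟨-, h1, h2⟩
    · exact absurd he (Nat.not_even_iff_odd.2 h1)
    · rw [dm_eq] at h1
      exact ⟨h1, bigLocO_of (h.galois i) h2⟩
  notIso := fun i j hij h1 => (h.distinct i j hij).1 (twistIso_of'
    (fun g x hx => (rhoT (isGalois (h.galois i)) g ⟨x, hx⟩).2) h1)
  mixed := by
    intro i j h1 h2 h3
    have hij : i ≠ j := by
      rintro rfl
      exact absurd h1 (Nat.not_odd_iff_even.2 h2)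
    exact (h.distinct i j hij).2.1 h1 h2 h3
  eight := by
    intro i j hij h1 h2 h3 h4
    exact absurd ⟨h1, h2, h3, h4⟩ (h.distinct i j hij).2.2

/-- the base -/
theorem C.TateFamily.bas (h : C.TateFamily χ X Z) : h.fam.Base Z := by
  intro i
  obtain ⟨r, U, h1, h2, h3⟩ := h.base i
  refine ⟨r, fun a => Y95.ZT.subRep Z.act (U a) (h2 a), fun a => (U a).subtype, fun a => ?_,
    fun a g x => rfl, ?_⟩
  · rcases Nat.even_or_odd (X i).X.dim with he | ho
    · have h4 := smallO_of he (ρT := rhoT (isGalois (h.galois i))) (fun g x => rfl) (h2 a) (h1 a)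
      unfold Fam.rep
      rw [dif_neg (Nat.not_odd_iff_even.2 he)]
      exact h4
    · have h4 := smallS_of ho (ρT := rhoT (isGalois (h.galois i))) (fun g x => rfl) (h2 a) (h1 a)
      unfold Fam.rep
      rw [dif_pos ho]
      exact h4
  · rw [← h3]
    congr 2
    refine Set.iUnion_congr fun a => ?_
    change Set.range ((U a).subtype) = _
    rw [Submodule.coe_subtype, Subtype.range_coe_subtype]
    rfl

theorem lTower_of {S : Set ι} {Y : GVar W Γ} (h : GTower X Z S Y) : LTower X Z S ∅ Y := by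
  induction h with
  | base => exact LTower.base
  | step i n _ hi hn hP ih => exact LTower.small i n ih hi hn hP

variable [IsAlgClosed W.K]

/-- **The Tate conjecture for towers.** -/
theorem C.TateFamily.iff (e : W.K ≃+* ℂ) (h : C.TateFamily χ X Z) {S : Set ι} {Y : GVar W Γ}
    (hY : GTower X Z S Y) (hG : C.GaloisVar χ Y) :
    (∀ Δ : Subgroup Γ, Δ.FiniteIndex → C.TateOver χ Δ Y) ↔ TateConjecture χ Z :=
  ⟨fun hT => h.fam.conv' (lTower_of hY) hT, fun hZ Δ hΔ => Fam.overField e h.bas (lTower_of hY)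
    hG hZ Δ hΔ (Or.inl fun i hi => absurd hi (Set.notMem_empty i))⟩

end Run7.h552.MX
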