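import Pool.Agent.Run7.h552.MX.CDefs

/-!
# The Tate conjecture for towers: definitions
-/

set_option autoImplicit false

open CategoryTheory AlgebraicGeometry

universe u

namespace Run7.h552.MX.C

open Pool.Agent.H914 Pool.Agent.H914.VarClass Pool.Agent.H914.VarClass.Obj
  Pool.Agent.H914.WeilCohomology Pool.Agent.TH125.Gal

/-- All elements `c` of `gr (2 * j)` such that `g c = χ g ^ j • c` for all `g ∈ Δ` are linear
combinations of elements of `S j` with the same property, for all `j`. -/
def TateOverAct {K A Γ : Type} [Field K] [Ring A] [Algebra K A] [Group Γ] (χ : Γ →* Kˣ)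
    (Δ : Subgroup Γ) (gr : ℕ → Submodule K A) (S : ℕ → Set A) (ρ : Act K A Γ) : Prop :=
  ∀ j, ∀ c ∈ gr (2 * j), (∀ g ∈ Δ, ap ρ g c = (χ g : K) ^ j • c) →
    c ∈ Submodule.span K {a | a ∈ S j ∧ ∀ g ∈ Δ, ap ρ g a = (χ g : K) ^ j • a}

variable {k : Type u} [Field k] {𝒱 : VarClass k} {ops : CycleOps 𝒱}
  {W : WeilCohomology.{u, 0} ops} {Γ : Type} [Group Γ] {ι : Type}

/-- Let `Δ` be the Galois group of the field `F`. This is part (b) of the Tate conjecture for `Y`
over `F`: for all `j`, every class in `H^(2j)(Y)` which is multiplied by `χ g ^ j` by all `g ∈ Δ` is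
a linear combination of classes of algebraic cycles of codimension `j` with the same property. -/
def TateOver (χ : CharOf W Γ) (Δ : Subgroup Γ) (Y : GVar W Γ) : Prop :=
  TateOverAct χ Δ (W.gr Y.X) (algClasses W Y.X) Y.act

/-- The group acts on the cohomology of the varieties `X i` like a Galois group; numerical and
homological equivalence coincide for them; they satisfy `Member`, two different ones satisfy
`Distinct`, and `Z` satisfies `SmallBase`. -/
structure TateFamily (χ : CharOf W Γ) (X : ι → GVar W Γ) (Z : GVar W Γ) : Prop where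
  galois : ∀ i, GaloisVar χ (X i)
  homEqNum : ∀ i, HomEqNum W (X i).X
  member : ∀ i, Member (X i)
  distinct : ∀ i j, i ≠ j → Distinct (X i) (X j)
  base : ∀ i, SmallBase χ Z (X i)

end Run7.h552.MX.C
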