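import Pool.Agent.Run7.h552.SF.Ext
import Pool.Agent.Y127.C.Aut2

/-!
# Members of symplectic type and members of orthogonal type
-/

set_option autoImplicit false
set_option linter.unusedSectionVars false

namespace Run7.h552.MX

open Module Finset Function Pool.Agent.TH125.Gal Pool.Agent.Y127.G Pool.Agent.Y127.C
  Pool.Agent.Y95.ZT Run7.h552.CT Run7.h552.SF

section lin

variable {K : Type} [Field K] [CharZero K] {V : Type} [AddCommGroup V] [Module K V]
  [Module.Finite K V] {B : V →ₗ[K] V →ₗ[K] K}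

/-- an isotropic vector in a subspace -/
theorem exists_isotropic [IsAlgClosed K] (hsy : ∀ x y, B x y = B y x) {U : Submodule K V}
    (hU : 2 ≤ finrank K U) : ∃ x ∈ U, x ≠ 0 ∧ B x x = 0 := by
  have h1 : 0 < finrank K U := by omega
  have : Nontrivial U := Module.nontrivial_of_finrank_pos h1
  obtain ⟨a, ha⟩ := exists_ne (0 : U)
  by_cases haa : B (a : V) a = 0
  · exact ⟨a, a.2, fun h => ha (Subtype.ext h), haa⟩
  obtain ⟨y, hy⟩ := exists_linearIndependent_pair_of_one_lt_finrank (R := K)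
    (M := U) (by omega) ha
  rw [LinearIndependent.pair_iff] at hy
  obtain ⟨s, hs⟩ := IsAlgClosed.exists_eq_mul_self
    (B a (y : V) * B a (y : V) - B (a : V) a * B (y : V) (y : V))
  refine ⟨((y : V) + ((B (a : V) a)⁻¹ * (s - B a (y : V))) • (a : V)), ?_, ?_, ?_⟩
  · exact Submodule.add_mem _ y.2 (Submodule.smul_mem _ _ a.2)
  · intro h0
    have h1 := hy ((B (a : V) a)⁻¹ * (s - B a (y : V))) 1 (Subtype.ext (by
      rw [one_smul, add_comm]
      exact h0))
    exact one_ne_zero h1.2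
  · simp only [map_add, map_smul, LinearMap.add_apply, LinearMap.smul_apply, smul_eq_mul]
    rw [hsy (y : V) a]
    field_simp
    linear_combination -hs

theorem finrank_inf_ker (U : Submodule K V) (f : V →ₗ[K] K) :
    finrank K U ≤ finrank K (U ⊓ LinearMap.ker f : Submodule K V) + 1 := by
  have h1 := Submodule.finrank_sup_add_finrank_inf_eq U (LinearMap.ker f)
  have h2 := LinearMap.finrank_range_add_finrank_ker f
  have h3 : finrank K (LinearMap.range f) ≤ 1 := by
    have h4 := Submodule.finrank_le (LinearMap.range f)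
    rwa [finrank_self] at h4
  have h4 := Submodule.finrank_le (U ⊔ LinearMap.ker f)
  omega

/-- two orthogonal isotropic vectors which are orthogonal to a hyperbolic pair -/
theorem exists_plane [IsAlgClosed K] (hsy : ∀ x y, B x y = B y x)
    (hnd : ∀ x, (∀ y, B x y = 0) → x = 0) {p q : V} (hpp : B p p = 0) (hqq : B q q = 0)
    (hqp : B q p = 1) (hn : 6 ≤ finrank K V) :
    ∃ x y : V, B x x = 0 ∧ B y y = 0 ∧ B x y = 0 ∧ B p x = 0 ∧ B q x = 0 ∧ B p y = 0 ∧
      B q y = 0 ∧ oo B 1 x y ≠ 0 := by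
  obtain ⟨x, hx, x', hx', hxx, hx'x', hx'x⟩ := exists_second hsy hnd hpp hqq hqp (by omega)
  have h1 := finrank_inf_ker (⊤ : Submodule K V) (B p)
  have h2 := finrank_inf_ker ((⊤ : Submodule K V) ⊓ LinearMap.ker (B p)) (B q)
  have h3 := finrank_inf_ker (((⊤ : Submodule K V) ⊓ LinearMap.ker (B p)) ⊓
    LinearMap.ker (B q)) (B x)
  have h4 := finrank_inf_ker ((((⊤ : Submodule K V) ⊓ LinearMap.ker (B p)) ⊓
    LinearMap.ker (B q)) ⊓ LinearMap.ker (B x)) (B x')
  rw [finrank_top] at h1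
  have h5 : 2 ≤ finrank K (((((⊤ : Submodule K V) ⊓ LinearMap.ker (B p)) ⊓
    LinearMap.ker (B q)) ⊓ LinearMap.ker (B x)) ⊓ LinearMap.ker (B x') : Submodule K V) := by
    omega
  obtain ⟨y, hy, hy0, hyy⟩ := exists_isotropic (B := B) hsy h5
  obtain ⟨⟨⟨⟨-, hpy⟩, hqy⟩, hxy⟩, hx'y⟩ := hy
  replace hpy : B p y = 0 := hpy
  replace hqy : B q y = 0 := hqy
  replace hxy : B x y = 0 := hxy
  replace hx'y : B x' y = 0 := hx'y
  refine ⟨x, y, hxx, hyy, hxy, (mem_UU.1 hx).1, (mem_UU.1 hx).2, hpy, hqy, fun h => hy0 ?_⟩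
  have h1 := LinearMap.congr_fun h x'
  rw [oo_one_apply, LinearMap.zero_apply, hsy y x', hx'y, zero_smul, zero_sub, hsy x x', hx'x,
    one_smul, neg_eq_zero] at h1
  exact h1

/-- `x` and `y` orthogonal isotropic vectors: `oo x y` is extremal. -/
theorem br_br_oo (hsy : ∀ x y, B x y = B y x) {x y : V} (hxx : B x x = 0) (hyy : B y y = 0)
    (hxy : B x y = 0) {Y : Module.End K V} (hY : Skew B Y) :
    ∃ c : K, br (oo B 1 x y) (br (oo B 1 x y) Y) = c • oo B 1 x y := by
  have h0 : ∀ X Y : Module.End K V, br X Y = -br Y X := fun X Y => by rw [br, br, neg_sub]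
  have hs := skew_one hsy x y
  have hE : ∀ z, oo B 1 x y z = B y z • x - B x z • y := fun z => oo_one_apply _ _ _
  have ex : oo B 1 x y x = 0 := by rw [hE, hsy y x, hxy, hxx, zero_smul, zero_smul, sub_zero]
  have ey : oo B 1 x y y = 0 := by rw [hE, hyy, hxy, zero_smul, zero_smul, sub_zero]
  refine ⟨-2 * B y (Y x), ?_⟩
  have h1 : br (oo B 1 x y) Y = -(oo B 1 (Y x) y + oo B 1 x (Y y)) := by
    rw [h0, br_oo hY]
  have hneg : ∀ X Z : Module.End K V, br X (-Z) = -br X Z := fun X Z => by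
    rw [br, br, mul_neg, neg_mul, sub_neg_eq_add, neg_sub, neg_add_eq_sub]
  rw [h1, hneg, br_add, br_oo hs, br_oo hs, ex, ey, oo_zero_left, oo_zero_right, add_zero,
    zero_add, hE, hE]
  have k1 : B x (Y x) = 0 := skew_diag hsy hY x
  have k2 : B y (Y y) = 0 := skew_diag hsy hY y
  have k3 : B x (Y y) = -B y (Y x) := by
    have h2 := hY x y
    rw [hsy (Y x) y] at h2
    linear_combination h2
  rw [k1, k2, k3, zero_smul, sub_zero, zero_smul, zero_sub, ← neg_smul, neg_neg, oo_smul_left,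
    oo_smul_right]
  module

/-- the bracket of two extremal elements of the symplectic Lie algebra is extremal only if it is
zero -/
theorem sp_zero (hsy : ∀ x y, B x y = -B y x) {v u w : V} {a b c : K}
    (h : br (a • oo B (-1) v v) (b • oo B (-1) u u) = c • oo B (-1) w w) :
    br (a • oo B (-1) v v) (b • oo B (-1) u u) = 0 := by
  have h0 : ∀ (a : K) (X Y : Module.End K V), br (a • X) Y = a • br X Y := fun a X Y => by
    rw [br, br, smul_mul_assoc, mul_smul_comm, smul_sub]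
  have e1 : br (a • oo B (-1) v v) (b • oo B (-1) u u) =
      (4 * a * b * B v u) • oo B (-1) v u := by
    rw [h0, br_smul, br_oom (oom_skew hsy v v), oom_self, oo_smul_left, smul_smul, smul_smul,
      smul_smul]
    congr 1
    ring
  rw [e1] at h ⊢
  by_cases h1 : 4 * a * b * B v u = 0
  · rw [h1, zero_smul]
  exfalso
  have hvu : B v u ≠ 0 := fun h2 => h1 (by rw [h2, mul_zero])
  have hvv := alt_self hsy v
  have huu := alt_self hsy u
  set d := 4 * a * b * B v u with hd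
  have hav : d • (B u v • v) = c • ((2 * B w v) • w) := by
    have h2 := LinearMap.congr_fun h v
    rw [LinearMap.smul_apply, LinearMap.smul_apply, oom_apply, oom_self, hvv, zero_smul,
      add_zero] at h2
    exact h2
  have hau : d • (B v u • u) = c • ((2 * B w u) • w) := by
    have h2 := LinearMap.congr_fun h u
    rw [LinearMap.smul_apply, LinearMap.smul_apply, oom_apply, oom_self, huu, zero_smul,
      zero_add] at h2
    exact h2
  simp only [smul_smul] at hau
  have h3 : B ((d * B u v) • v) ((d * B v u) • u) = 0 := by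
    rw [smul_smul, smul_smul] at hav
    rw [hav, hau, map_smul, map_smul, LinearMap.smul_apply, alt_self hsy, smul_zero, smul_zero]
  rw [map_smul, map_smul, LinearMap.smul_apply, smul_eq_mul, smul_eq_mul] at h3
  have hBuv : B u v ≠ 0 := by
    rw [hsy, neg_ne_zero]
    exact hvu
  rcases mul_eq_zero.1 h3 with h4 | h4
  · rcases mul_eq_zero.1 h4 with h5 | h5
    · exact h1 h5
    · exact hvu h5
  · rcases mul_eq_zero.1 h4 with h5 | h5
    · rcases mul_eq_zero.1 h5 with h6 | h6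
      · exact h1 h6
      · exact hBuv h6
    · exact hvu h5

end lin

section good

variable {K : Type} [Field K] [CharZero K] {Γ : Type} [Group Γ] {ι : Type}
  {N : ι → FRep K Γ} {t t' : ι}

/-- symmetry -/
theorem good_symm_so (o : FulS N t) (o' : Ful N t') (h : Good N t t') : Good N t' t := by
  by_contra hng
  have h0 : ∀ D ∈ GG1 N, D t = 0 → D t' = 0 := by
    intro D hD ha
    by_contra ht
    exact hng ⟨D, hD, ha, ht⟩
  have h2 : ∀ X : Module.End K (N t).V, Skew o.B X → ∃ D ∈ kil N {t'}, D t = X := fun X hX =>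
    skew_memS (a := res (kil N {t'}) t) o.sy o.nd (fun x y => by
      obtain ⟨D, hD, hDt, hDt'⟩ := o.good_all h x y
      exact ⟨D, ⟨hD, fun a ha => by rw [Set.mem_singleton_iff.1 ha]; exact hDt⟩, hDt'⟩) hX
  obtain ⟨D1, hD1, hD1t⟩ := o'.full o'.p o'.q
  obtain ⟨D2, hD2, hD2t⟩ := h2 _ (o.skew hD1)
  have h3 := h0 (D1 - D2) ((GG1 N).sub_mem hD1 hD2.1) (by rw [Pi.sub_apply, hD2t, sub_self])
  rw [Pi.sub_apply, hD2.2 t' rfl, sub_zero, hD1t] at h3
  have h4 := LinearMap.congr_fun h3 o'.p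
  rw [H_p o'.sy o'.pp o'.qp, LinearMap.zero_apply] at h4
  have h5 := o'.qp
  rw [h4, map_zero] at h5
  exact zero_ne_one h5

/-- symmetry -/
theorem good_symm_sp (o : FulS N t) (o' : Ful N t') (h : Good N t' t) : Good N t t' := by
  by_contra hng
  have h0 : ∀ D ∈ GG1 N, D t' = 0 → D t = 0 := by
    intro D hD ha
    by_contra ht
    exact hng ⟨D, hD, ha, ht⟩
  have h2 : ∀ X : Module.End K (N t').V, Skew o'.B X → ∃ D ∈ kil N {t}, D t' = X := fun X hX =>
    skew_mem (a := res (kil N {t}) t') o'.sy o'.nd (fun x y => by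
      obtain ⟨D, hD, hDt, hDt'⟩ := o'.good_all h x y
      exact ⟨D, ⟨hD, fun a ha => by rw [Set.mem_singleton_iff.1 ha]; exact hDt⟩, hDt'⟩) hX
  have hp0 : o.p ≠ 0 := by
    intro h
    apply o.pq
    rw [h, map_zero, LinearMap.zero_apply]
  obtain ⟨D1, hD1, hD1t⟩ := o.full o.p o.p
  obtain ⟨D2, hD2, hD2t⟩ := h2 _ (o'.skew hD1)
  have h3 := h0 (D1 - D2) ((GG1 N).sub_mem hD1 hD2.1) (by rw [Pi.sub_apply, hD2t, sub_self])
  rw [Pi.sub_apply, hD2.2 t rfl, sub_zero, hD1t] at h3
  exact hp0 (oom_inj o.sy o.nd hp0 h3)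

variable [IsAlgClosed K]

/-- **Symplectic and orthogonal members, large dimension.** -/
theorem good_six (o : FulS N t) (o' : Ful N t') (hn : 6 ≤ finrank K (N t').V) : Good N t t' := by
  by_contra hng
  have h0 : ∀ D ∈ GG1 N, D t' = 0 → D t = 0 := by
    intro D hD ha
    by_contra ht
    exact hng ⟨D, hD, ha, ht⟩
  have hlift : ∀ X : Module.End K (N t').V, Skew o'.B X → ∃ D ∈ GG1 N, D t' = X := fun X hX =>
    skew_mem (a := res (GG1 N) t') o'.sy o'.nd (fun x y => o'.full x y) hX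
  let f : GG1 N →ₗ[K] Module.End K (N t').V :=
    (LinearMap.proj t' : (∀ i, (N i).V →ₗ[K] (N i).V) →ₗ[K] _) ∘ₗ (GG1 N).subtype
  let g : GG1 N →ₗ[K] Module.End K (N t).V :=
    (LinearMap.proj t : (∀ i, (N i).V →ₗ[K] (N i).V) →ₗ[K] _) ∘ₗ (GG1 N).subtype
  obtain ⟨Φ, hΦ⟩ := exists_factor f g fun x hx => h0 x.1 x.2 hx
  have hΦ' : ∀ D ∈ GG1 N, Φ (D t') = D t := fun D hD => hΦ ⟨D, hD⟩
  have hΦs : ∀ X, Skew o'.B X → Skew o.B (Φ X) := by
    intro X hX
    obtain ⟨D, hD, rfl⟩ := hlift X hX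
    rw [hΦ' D hD]
    exact o.skew hD
  have hΦb : ∀ X Y, Skew o'.B X → Skew o'.B Y → Φ (br X Y) = br (Φ X) (Φ Y) := by
    intro X Y hX hY
    obtain ⟨D, hD, rfl⟩ := hlift X hX
    obtain ⟨D', hD', rfl⟩ := hlift Y hY
    rw [hΦ' D hD, hΦ' D' hD', ← brk_eq_br, hΦ' _ (brk_mem1 (GG1_le hD) (GG1_le hD')), brk_eq_br]
  -- extremal elements
  have hext : ∀ x y, o'.B x x = 0 → o'.B y y = 0 → o'.B x y = 0 →
      ∃ (v : (N t).V) (c : K), Φ (oo o'.B 1 x y) = c • oo o.B (-1) v v := by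
    intro x y hxx hyy hxy
    have hs := skew_one o'.sy x y
    by_cases h1 : Φ (oo o'.B 1 x y) = 0
    · exact ⟨0, 0, by rw [h1, zero_smul]⟩
    · obtain ⟨v, c, -, -, h2⟩ := extremal o.sy o.nd (hΦs _ hs) h1 fun y' => by
        obtain ⟨D', hD', hDt'⟩ := o.full y' y'
        obtain ⟨D, hD, hDt⟩ := hlift _ hs
        have hs' := o'.skew hD'
        have hb : Skew o'.B (br (oo o'.B 1 x y) (D' t')) := by
          rw [← hDt, ← brk_eq_br]
          exact o'.skew (brk_mem1 (GG1_le hD) (GG1_le hD'))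
        obtain ⟨c, hc⟩ := br_br_oo o'.sy hxx hyy hxy hs'
        refine ⟨c, ?_⟩
        rw [← hDt', ← hΦ' D' hD', ← hΦb _ _ hs hs', ← hΦb _ _ hs hb, hc, map_smul]
      exact ⟨v, c, h2⟩
  obtain ⟨x, y, hxx, hyy, hxy, hpx, hqx, hpy, hqy, hne⟩ :=
    exists_plane o'.sy o'.nd o'.pp o'.qq o'.qp hn
  have hpq : o'.B o'.p o'.q = 1 := by rw [o'.sy, o'.qp]
  have hbr : br (oo o'.B 1 o'.p x) (oo o'.B 1 o'.q y) = -oo o'.B 1 x y := by
    rw [br_oo (skew_one o'.sy _ _), oo_one_apply, oo_one_apply, o'.sy x o'.q, hqx, hpq, zero_smul,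
      one_smul, zero_sub, hxy, hpy, zero_smul, zero_smul, sub_zero, oo_zero_right, add_zero,
      ← neg_one_smul K x, oo_smul_left, neg_one_smul]
  have hz : Φ (oo o'.B 1 x y) = 0 := by
    obtain ⟨v, a, hv⟩ := hext o'.p x o'.pp hxx hpx
    obtain ⟨u, b, hu⟩ := hext o'.q y o'.qq hyy hqy
    obtain ⟨w, c, hw⟩ := hext x y hxx hyy hxy
    have h1 := hΦb _ _ (skew_one o'.sy o'.p x) (skew_one o'.sy o'.q y)
    rw [hbr, map_neg, hw, hv, hu, ← neg_smul] at h1
    have h2 := sp_zero o.sy h1.symm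
    rw [← h1, neg_smul, neg_eq_zero] at h2
    rw [hw, h2]
  -- an ideal
  obtain ⟨D, hD, hDt⟩ := o'.full x y
  have hDk : D ∈ kil N {t} := by
    refine ⟨hD, fun a ha => ?_⟩
    rw [Set.mem_singleton_iff.1 ha, ← hΦ' D hD, hDt, hz]
  have hgood : Good N t' t := ⟨D, hD, hDk.2 t rfl, by rw [hDt]; exact hne⟩
  exact hng (good_symm_sp o o' hgood)

/-- **Symplectic and orthogonal members.** -/
theorem good_mixed (o : FulS N t) (o' : Ful N t')
    (hd : finrank K (N t').V = finrank K (N t).V + 1 → 5 < finrank K (N t').V) :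
    Good N t t' := by
  rcases Nat.lt_or_ge 5 (finrank K (N t').V) with h5 | h5
  · exact good_six o o' h5
  · have hdim := o'.dim
    rcases Nat.lt_or_ge (finrank K (N t).V) (finrank K (N t').V) with h1 | h1
    · -- the orthogonal member is larger
      refine good_symm_sp o o' (o'.good_of_alt o.toFrm o.sy o.nd ?_)
      have h2 : finrank K (N t').V ≠ finrank K (N t).V + 1 := fun h => by
        have h3 := hd h
        omega
      omega
    · exact o.good_of_sym o'.toFrm o'.sy o'.nd h1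

end good

end Run7.h552.MX
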