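import Pool.Agent.Run7.h552.SF.App
import Pool.Agent.V11219.SstStd

/-!
# Representations with a local condition are not zero
-/

set_option autoImplicit false
set_option linter.unusedSectionVars false

namespace Run7.h552.MX

open Pool.Agent.TH118.SG Pool.Agent.TH125.Gal Pool.Agent.Y127 Pool.Agent.Y127.G
  Pool.Agent.Y95.ZT Run7.h552.CT Run7.h552.SF Pool.Agent.V11219.Sst Pool.Agent.V11219

variable {K : Type} [Field K] [CharZero K] {Γ : Type} [Group Γ]

theorem not_wType_zero {M : FRep K Γ} (h : WType M 0) : False := by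
  rcases h with ⟨a, a', -, h, -⟩ | ⟨s', h, c, ⟨-, h1, -⟩, -⟩
  · rw [Multiset.count_zero] at h
    exact absurd h (by norm_num)
  · exact absurd h1.symm (Multiset.cons_ne_zero)

/-- representations with a local condition are not zero -/
theorem exists_ne_of_bigLoc {M : FRep K Γ} (h : BigLoc M) : ∃ x : M.V, x ≠ 0 := by
  by_contra hcon
  push Not at hcon
  have hs : Subsingleton M.V := ⟨fun a b => by rw [hcon a, hcon b]⟩
  rcases h with ⟨v, F, h⟩ | ⟨D, s, hs', h⟩ | h
  · have h1 : slopes v (M.ρ F) = 0 := by
      have h2 : (M.ρ F : Module.End K M.V).charpoly.roots = 0 := by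
        rw [← Multiset.card_eq_zero, ← Nat.le_zero]
        refine (Polynomial.card_roots' _).trans ?_
        rw [LinearMap.charpoly_natDegree, Module.finrank_zero_of_subsingleton]
      rw [slopes, h2, Multiset.map_zero]
    rw [h1] at h
    exact not_wType_zero h
  · obtain ⟨κ, hκ, b, w, -, hw⟩ := hs'
    have h1 : IsEmpty κ := ⟨fun k => b.ne_zero k (hcon _)⟩
    rw [Finset.univ_eq_empty, Finset.empty_val, Multiset.map_zero] at hw
    rw [← hw, Multiset.map_zero] at h
    exact not_wType_zero h
  · obtain ⟨g, -, hg⟩ := exists_ne_one h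
    exact hg (LinearMap.ext fun x => Subsingleton.elim _ _)

end Run7.h552.MX
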