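import Pool.Agent.Run7.h552.MX.Mix
import Pool.Agent.Run7.h552.MX.LDefs
import Pool.Agent.Run7.h552.SF.Sml
import Pool.Agent.Q71.TM.App
import Pool.Agent.Y95.ZT.Gap
import Pool.Agent.Y95.ZT.Hyp

/-!
# Members of orthogonal type: weights
-/

set_option autoImplicit false
set_option linter.unusedSectionVars false

namespace Run7.h552.MX

open Module Finset Function Pool.Agent.TH125.Gal Pool.Agent.Y127.G Pool.Agent.Y127.C
  Pool.Agent.Y95.ZT Run7.h552.CT Run7.h552.SF

noncomputable section

section lin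

variable {K : Type} [Field K] [CharZero K] {V : Type} [AddCommGroup V] [Module K V]
  [FiniteDimensional K V]

/-- **The weights are symmetric.** -/
theorem wt_symm {A : Module.End K V} {B : V →ₗ[K] V →ₗ[K] K}
    (hnd : ∀ x, (∀ y, B x y = 0) → x = 0) (hsy : ∀ x y, B x y = B y x) {m : ℚ}
    (hA : ∀ x y, B (A x) y + B x (A y) = (m : K) * B x y) {s : Multiset ℚ} (h : HasWt A s) :
    s.map (fun z => m - z) = s := by
  classical
  refine HasWt.unique (A := A) ?_ h
  obtain ⟨κ, hκ, b, w, hb, hw⟩ := h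
  have hB : LinearMap.BilinForm.Nondegenerate B := by
    refine ⟨fun x hx => hnd x fun y => hx y, fun x hx => hnd x fun y => ?_⟩
    rw [hsy, hx y]
  refine ⟨κ, hκ, LinearMap.BilinForm.dualBasis B hB b, fun k => m - w k, fun k => ?_, ?_⟩
  · rw [← sub_eq_zero]
    refine hnd _ fun y => ?_
    have h1 : B (A (LinearMap.BilinForm.dualBasis B hB b k) -
        ((m - w k : ℚ) : K) • LinearMap.BilinForm.dualBasis B hB b k) = 0 := b.ext fun j => by
      have h2 := hA (LinearMap.BilinForm.dualBasis B hB b k) (b j)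
      have h3 := LinearMap.BilinForm.apply_dualBasis_left hB b k j
      rw [map_sub, map_smul, LinearMap.sub_apply, LinearMap.smul_apply, LinearMap.zero_apply,
        smul_eq_mul]
      rw [hb, map_smul, smul_eq_mul, h3] at h2
      rw [h3]
      by_cases hj : j = k
      · subst hj
        rw [if_pos rfl] at h2 ⊢
        push_cast
        linear_combination h2
      · rw [if_neg hj] at h2 ⊢
        linear_combination h2
    rw [h1, LinearMap.zero_apply]
  · rw [← hw, Multiset.map_map]
    rfl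

/-- the centre of symmetry -/
theorem mid_eq {s : Multiset ℚ} {m : ℚ} (hm : s.map (fun z => m - z) = s) (h0 : s.card ≠ 0) :
    m = 2 * (s.sum / s.card) := by
  have h1 : (s.map (fun z => m - z)).sum = s.card * m - s.sum := by
    rw [Multiset.sum_map_sub, Multiset.map_const', Multiset.sum_replicate, Multiset.map_id',
      nsmul_eq_mul]
  rw [hm] at h1
  have h2 : (s.card : ℚ) ≠ 0 := Nat.cast_ne_zero.2 h0
  field_simp
  linarith

/-- the ordered pairs, the strictly ordered pairs and the diagonal -/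
theorem half_lt {κ : Type} [Fintype κ] [LinearOrder κ] (P : κ × κ → Prop) [DecidablePred P]
    (hP : ∀ x, P x → P x.swap) :
    Fintype.card {x : κ × κ // P x} ≤ 2 * Fintype.card {x : κ × κ // P x ∧ x.1 < x.2} +
      Fintype.card {k : κ // P (k, k)} := by
  have h1 : (univ.filter (fun x : κ × κ => P x) : Finset (κ × κ)) ⊆
      ((univ.filter fun x : κ × κ => P x ∧ x.1 < x.2) ∪
        (univ.filter fun x : κ × κ => P x ∧ x.1 < x.2).image Prod.swap) ∪
        (univ.filter fun k : κ => P (k, k)).image fun k => (k, k) := by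
    intro x hx
    rw [Finset.mem_filter] at hx
    rcases lt_trichotomy x.1 x.2 with h | h | h
    · exact Finset.mem_union_left _ (Finset.mem_union_left _
        (Finset.mem_filter.2 ⟨mem_univ _, hx.2, h⟩))
    · refine Finset.mem_union_right _ (Finset.mem_image.2 ⟨x.1,
        Finset.mem_filter.2 ⟨mem_univ _, ?_⟩, Prod.ext rfl h⟩)
      have h2 : x = (x.1, x.1) := Prod.ext rfl h.symm
      rw [← h2]
      exact hx.2
    · exact Finset.mem_union_left _ (Finset.mem_union_right _ (Finset.mem_image.2 ⟨x.swap,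
        Finset.mem_filter.2 ⟨mem_univ _, hP _ hx.2, h⟩, Prod.swap_swap x⟩))
  have h2 := (Finset.card_le_card h1).trans (Finset.card_union_le _ _)
  have h2' := Finset.card_union_le (univ.filter fun x : κ × κ => P x ∧ x.1 < x.2)
    ((univ.filter fun x : κ × κ => P x ∧ x.1 < x.2).image Prod.swap)
  have h3 := Finset.card_image_le (s := univ.filter fun x : κ × κ => P x ∧ x.1 < x.2)
    (f := Prod.swap)
  have h4 := Finset.card_image_le (s := univ.filter fun k : κ => P (k, k))
    (f := fun k => (k, k))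
  have e1 : Fintype.card {x : κ × κ // P x} = (univ.filter (fun x : κ × κ => P x)).card :=
    Fintype.card_subtype _
  have e2 : Fintype.card {x : κ × κ // P x ∧ x.1 < x.2} =
    (univ.filter fun x : κ × κ => P x ∧ x.1 < x.2).card := Fintype.card_subtype _
  have e3 : Fintype.card {k : κ // P (k, k)} = (univ.filter fun k : κ => P (k, k)).card :=
    Fintype.card_subtype _
  rw [e1, e2, e3]
  omega

theorem card_count {κ : Type} [Fintype κ] {w : κ → ℚ} {s : Multiset ℚ}
    (hw : (univ : Finset κ).val.map w = s) (z : ℚ) [DecidablePred fun k : κ => w k = z] :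
    Fintype.card {k : κ // w k = z} = s.count z := by
  classical
  rw [← hw, Multiset.count_map, Fintype.card_subtype, Finset.card_def, Finset.filter_val]
  congr 1
  refine Multiset.filter_congr fun x _ => ?_
  exact eq_comm

end lin

variable {K : Type} [Field K] [CharZero K] {Γ : Type} [Group Γ] {ι : Type}
  {N : ι → FRep K Γ} {t t' : ι}

/-- the multiplier of a derivation is twice the centre -/
theorem two_mid (fr : Frm N t) (nd : ∀ x, (∀ y, fr.B x y = 0) → x = 0)
    (sy : ∀ x y, fr.B x y = fr.B y x) {J : ∀ i, (N i).V →ₗ[K] (N i).V} {α : K}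
    (hα : ∀ x y, fr.B (J t x) y + fr.B x (J t y) = α * fr.B x y) {s : Multiset ℚ}
    (hs : HasWt (J t) s) (h0 : s.card ≠ 0) :
    α = ((2 * (s.sum / s.card) : ℚ) : K) ∧ s.map (fun z => 2 * (s.sum / s.card) - z) = s := by
  have hs0 := hs
  obtain ⟨κ, hκ, b, w, hJ, hw⟩ := hs
  have hk : Nonempty κ := by
    by_contra hcon
    rw [not_nonempty_iff] at hcon
    apply h0
    rw [← hw, Multiset.card_map, Finset.univ_eq_empty, Finset.empty_val, Multiset.card_zero]
  obtain ⟨k⟩ := hk
  obtain ⟨l, hl⟩ := exists_pair nd b k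
  have hαm := wt_sum fr hα hJ hl
  obtain ⟨m, hm⟩ : ∃ m : ℚ, m = w k + w l := ⟨_, rfl⟩
  rw [← hm] at hαm
  rw [hαm] at hα
  have hsym := wt_symm nd sy hα hs0
  have h1 := mid_eq hsym h0
  rw [hαm, ← h1]
  exact ⟨rfl, hsym⟩

/-- **The criterion with weights, orthogonal type.** -/
theorem good_of_gapO (o : Ful N t) {J : ∀ i, (N i).V →ₗ[K] (N i).V} (hJG : J ∈ GG N) {a : ι}
    {s s' : Multiset ℚ} (hs : HasWt (J t) s) (hs' : HasWt (J a) s') {δ : ℚ}
    (hg : 2 * gaps s' δ + s.count (s.sum / s.card + δ / 2) < gaps s δ) : Good N t a := by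
  classical
  have hs0 := hs
  have h0 : s.card ≠ 0 := by
    intro h0
    rw [Multiset.card_eq_zero] at h0
    rw [h0] at hg
    have h1 : gaps 0 δ = 0 := by rw [gaps, Multiset.zero_product, Multiset.countP_zero]
    rw [h1] at hg
    omega
  obtain ⟨α, hα⟩ := o.der hJG
  obtain ⟨hαm, hsym⟩ := two_mid o.toFrm o.nd o.sy hα hs0 h0
  obtain ⟨κ, hκ, b, w, hJ, hw⟩ := hs
  obtain ⟨κ', hκ', b', w', hJ', hw'⟩ := hs'
  obtain ⟨m, hm⟩ : ∃ m : ℚ, m = 2 * (s.sum / s.card) := ⟨_, rfl⟩
  rw [← hm] at hαm hsym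
  rw [hαm] at hα
  have hcard := card_sum hw hsym δ
  let e := Fintype.equivFin κ
  let _ : LinearOrder κ := LinearOrder.lift' e e.injective
  have hhalf := half_lt (fun x : κ × κ => w x.1 + w x.2 = m + δ) (fun x hx => by
    change w x.2 + w x.1 = m + δ
    rw [add_comm]
    exact hx)
  rw [hcard] at hhalf
  have hdiag : Fintype.card {k : κ // w k + w k = m + δ} = s.count (s.sum / s.card + δ / 2) := by
    rw [← card_count hw (s.sum / s.card + δ / 2)]
    refine Fintype.card_congr (Equiv.subtypeEquivRight fun k => ?_)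
    rw [hm]
    constructor <;> intro h <;> linarith
  rw [hdiag] at hhalf
  let f : {x : κ × κ // w x.1 + w x.2 = m + δ ∧ x.1 < x.2} → κ × κ := fun x => x.1
  have hf : Function.Injective f := Subtype.val_injective
  have hsw : ∀ x y, f y ≠ (f x).swap := by
    intro x y h
    have hy : y.1 = x.1.swap := h
    have e1 : y.1.1 = x.1.2 := congrArg Prod.fst hy
    have e2 : y.1.2 = x.1.1 := congrArg Prod.snd hy
    have h3 := y.2.2
    rw [e1, e2] at h3
    exact lt_asymm h3 x.2.2
  refine good_of_eig o hJG b' (fun k => (w' k : K)) hJ' (δ : K)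
    (li_oo (b := b) o.nd hf hsw) (fun x => skew_one o.sy _ _) (fun x => ?_) ?_
  · -- the eigenvalue
    have hh : (m : K) = ((2 * (m / 2) : ℚ) : K) := by
      congr 1
      ring
    have hc := ctr_mem o.toFrm hJG hα hh
    have h1 : J t = ctr (J t) (m / 2) + ((m / 2 : ℚ) : K) • 1 := by rw [ctr, sub_add_cancel]
    rw [h1, br_scalar_left, br_oo hc.1, ctr_b hJ, ctr_b hJ, oo_smul_left, oo_smul_right, ← add_smul]
    congr 1
    have h2 := x.2.1
    have h3 : w (f x).1 - m / 2 + (w (f x).2 - m / 2) = δ := by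
      change w x.1.1 - m / 2 + (w x.1.2 - m / 2) = δ
      linarith
    rw [← h3]
    push_cast
    rfl
  · rw [gaps_eq (K := K) hw' δ]
    omega

/-- the dimension criterion -/
theorem good_of_sqO (o : Ful N t) {a : ι}
    (h : 2 * finrank K (N a).V ^ 2 < finrank K (N t).V * (finrank K (N t).V - 1)) :
    Good N t a := by
  refine o.good_of_lt ⊤ (fun D _ => Submodule.mem_top) ?_
  have h1 := le_finrank_skew o.sy o.nd
  have h2 : finrank K (⊤ : Submodule K (Module.End K (N a).V)) = finrank K (N a).V ^ 2 := by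
    rw [finrank_top, show finrank K (Module.End K (N a).V) =
      finrank K ((N a).V →ₗ[K] (N a).V) from rfl, finrank_linearMap, pow_two]
  have h3 := Finset.sum_range_id_mul_two (finrank K (N t).V)
  omega

theorem level_card (p q : ℕ) (h c : ℚ) : (Level p q h c).card = 2 * p + q := by
  rw [Level, Multiset.card_add, Multiset.card_add, Multiset.card_replicate,
    Multiset.card_replicate, Multiset.card_replicate]
  ring

theorem level_sum (p q : ℕ) (h c : ℚ) : (Level p q h c).sum = (2 * p + q : ℕ) * h := by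
  rw [Level, Multiset.sum_add, Multiset.sum_add, Multiset.sum_replicate, Multiset.sum_replicate,
    Multiset.sum_replicate]
  simp only [nsmul_eq_mul]
  push_cast
  ring

theorem level_mid {p q : ℕ} (hp : 0 < p) (h c : ℚ) :
    (Level p q h c).sum / (Level p q h c).card = h := by
  rw [level_card, level_sum]
  have h1 : ((2 * p + q : ℕ) : ℚ) ≠ 0 := Nat.cast_ne_zero.2 (by omega)
  field_simp

/-- **Members of level two.** -/
theorem exists_Ful_lvQ (e : K ≃+* ℂ) (fr : Frm N t) (sy : ∀ x y, fr.B x y = fr.B y x)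
    (nd : ∀ x, (∀ y, fr.B x y = 0) → x = 0) (si : SI (N t).ρ)
    {J : ∀ i, (N i).V →ₗ[K] (N i).V} (hJG : J ∈ GG N) {p q : ℕ} (hnum : LvNum p q) {h c : ℚ}
    (hc : 0 < c) (hW : HasWt (J t) (Level p q h c)) : ∃ o : Ful N t, o.toFrm = fr := by
  classical
  have hlt := hnum.lt
  have hcond : p = 1 ∨ 2 * p ^ 2 * (p ^ 2 + 1) < (q - 2 * p) * (q + p) := by
    rcases hnum with h | h
    · exact Or.inl h.1
    · exact Or.inr h.2.2
  have hcop : Nat.Coprime p q := by
    rcases hnum with h | h
    · rw [h.1]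
      exact Nat.coprime_one_left q
    · exact h.2.1
  have hp : 0 < p := by omega
  obtain ⟨α, hα⟩ := fr.der hJG
  have h2 := (two_mid fr nd sy hα hW (by rw [level_card]; omega)).1
  rw [level_mid hp] at h2
  have hmem := ctr_mem fr hJG hα h2
  obtain ⟨κ, hκ, b, w, hJ, hw⟩ := hW
  have hc0 : (c : K) ≠ 0 := Rat.cast_ne_zero.2 hc.ne'
  -- the integral weights
  have hz : ∀ k, ∃ z : ℤ, w k - h = z * c ∧ (z = 1 ∨ z = 0 ∨ z = -1) := by
    intro k
    have h1 := mem_of_map hw k
    rw [Level, Multiset.mem_add, Multiset.mem_add] at h1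
    rcases h1 with (h1 | h1) | h1
    · exact ⟨1, by rw [Multiset.eq_of_mem_replicate h1]; push_cast; ring, Or.inl rfl⟩
    · exact ⟨0, by rw [Multiset.eq_of_mem_replicate h1]; push_cast; ring, Or.inr (Or.inl rfl)⟩
    · exact ⟨-1, by rw [Multiset.eq_of_mem_replicate h1]; push_cast; ring,
        Or.inr (Or.inr rfl)⟩
  choose z hz hz' using hz
  have hXb : ∀ k, ((c : K)⁻¹ • ctr (J t) h) (b k) = (z k : K) • b k := by
    intro k
    rw [LinearMap.smul_apply, ctr_b hJ, hz, smul_smul]
    congr 1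
    push_cast
    field_simp
  have hzw : (univ : Finset κ).val.map z = lvW p q 0 := by
    have hinj : Function.Injective fun y : ℤ => h + y * c := by
      intro x y hxy
      have h3 : (x : ℚ) * c = y * c := by simpa using hxy
      exact_mod_cast mul_right_cancel₀ hc.ne' h3
    apply Multiset.map_injective hinj
    rw [Multiset.map_map]
    have h3 : ((fun y : ℤ => h + y * c) ∘ z) = w := by
      funext k
      have h4 := hz k
      change h + (z k : ℚ) * c = w k
      linarith
    rw [h3, hw, lvW, Level, Multiset.map_add, Multiset.map_add, Multiset.map_replicate,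
      Multiset.map_replicate, Multiset.map_replicate]
    congr 1
    · congr 1
      · congr 1
        push_cast
        ring
      · congr 1
        push_cast
        ring
    · congr 1
      push_cast
      ring
  have e0 : ∀ X : Module.End K (N t).V, X - ((0 : ℤ) : K) • 1 = X := fun X => by
    rw [Int.cast_zero, zero_smul, sub_zero]
  have hcube := cube_lv hXb hzw
  have htr := trace_lv hXb hzw
  rw [e0] at hcube htr
  have hn := finrank_lv b hzw
  have hall : ∀ x y, oo fr.B 1 x y ∈ frL fr := by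
    intro x y
    exact core_End (ρ := (N t).ρ) e si sy nd hn (by omega) (by omega) hcond hcop
      (L := frL fr) (fun A hA => hA.1) (fun A hA A' hA' => frL_br fr A hA A' hA')
      (fun γ A hA => frL_conj fr γ A hA) hcube htr
      ((frL fr).smul_mem _ hmem) (skew_one sy x y)
  -- a hyperbolic pair
  obtain ⟨c, hc⟩ := exists_onb e sy nd
  have hdim : 2 ≤ finrank K (N t).V := by omega
  obtain ⟨z, hz⟩ : ∃ z : K, z * z = -1 := by
    refine ⟨e.symm Complex.I, ?_⟩
    rw [← map_mul, Complex.I_mul_I, map_neg, map_one]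
  let i0 : Fin (finrank K (N t).V) := ⟨0, by omega⟩
  let i1 : Fin (finrank K (N t).V) := ⟨1, by omega⟩
  have h00 : fr.B (c i0) (c i0) = 1 := by rw [hc, if_pos rfl]
  have h11 : fr.B (c i1) (c i1) = 1 := by rw [hc, if_pos rfl]
  have h01 : fr.B (c i0) (c i1) = 0 := by rw [hc, if_neg (by simp [i0, i1, Fin.ext_iff])]
  have h10 : fr.B (c i1) (c i0) = 0 := by rw [hc, if_neg (by simp [i0, i1, Fin.ext_iff])]
  refine ⟨⟨fr, sy, nd, si, by omega, c i0 + z • c i1,
    (2⁻¹ : K) • (c i0 - z • c i1), ?_, ?_, ?_, fun x y => (hall x y).2⟩, rfl⟩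
  · simp only [map_add, map_smul, LinearMap.add_apply, LinearMap.smul_apply, smul_eq_mul, h00,
      h11, h01, h10]
    linear_combination hz
  · simp only [map_sub, map_smul, LinearMap.sub_apply, LinearMap.smul_apply, smul_eq_mul, h00,
      h11, h01, h10]
    linear_combination (1 / 4 : K) * hz
  · simp only [map_add, map_sub, map_smul, LinearMap.sub_apply,
      LinearMap.smul_apply, smul_eq_mul, h00, h11, h01, h10]
    linear_combination (-1 / 2 : K) * hz

/-- the hyperbolic pair -/
theorem hyp_of_lvQ [IsAlgClosed K] (fr : Frm N t) (sy : ∀ x y, fr.B x y = fr.B y x)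
    (nd : ∀ x, (∀ y, fr.B x y = 0) → x = 0) {J : ∀ i, (N i).V →ₗ[K] (N i).V} (hJG : J ∈ GG N)
    {q : ℕ} {h c : ℚ} (hc : 0 < c) (hW : HasWt (J t) (Level 1 q h c)) :
    ∃ (p q : (N t).V) (h : K), fr.B p p = 0 ∧ fr.B q q = 0 ∧ fr.B q p = 1 ∧
      J t = (c : K) • oo fr.B 1 p q + h • 1 := by
  obtain ⟨κ, hκ, b, w, hJ, hw⟩ := hW
  have hg : (univ : Finset κ).val.map w =
      (h + c) ::ₘ (h - c) ::ₘ Multiset.replicate q h := by
    rw [hw, Level, Multiset.replicate_one, Multiset.replicate_one, add_assoc,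
      Multiset.singleton_add, add_comm (Multiset.replicate q h), Multiset.singleton_add]
  obtain ⟨k1, k2, -, h1, h2, h3⟩ := three hg
  obtain ⟨lam, hlam⟩ := fr.der hJG
  obtain ⟨p, q', hpp, hqq, hqp, hJe⟩ := hyp_of_three (B := fr.B) (J := J t) (lam := lam) sy nd
    hlam (b := b) (g := w) (h := h) (c := c) hJ hc.ne' h1 h2 h3
  exact ⟨p, q', (h : K), hpp, hqq, hqp, hJe⟩

/-- **Members of K3 type with a common operator.** -/
theorem good_same_lv [IsAlgClosed K] (o : Ful N t) (o' : Ful N t')
    {J : ∀ i, (N i).V →ₗ[K] (N i).V} (hJG : J ∈ GG N) {q q' : ℕ} {h h' c : ℚ} (hc : 0 < c)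
    (hW : HasWt (J t) (Level 1 q h c)) (hW' : HasWt (J t') (Level 1 q' h' c))
    (hiso : ¬IsoUpTo (N t') (N t)) : Good N t t' := by
  obtain ⟨u, v, d, e1, e2, e3, e4⟩ := hyp_of_lvQ o.toFrm o.sy o.nd hJG hc hW
  obtain ⟨u', v', d', e1', e2', e3', e4'⟩ := hyp_of_lvQ o'.toFrm o'.sy o'.nd hJG hc hW'
  have hc0 : (c : K) ≠ 0 := Rat.cast_ne_zero.2 hc.ne'
  refine good_hyp o o' ((GG N).smul_mem (c : K)⁻¹ hJG) e1 e2 e3 e1' e2' e3'
    (h := (c : K)⁻¹ * d) (h' := (c : K)⁻¹ * d') ?_ ?_ hiso
  · rw [Pi.smul_apply, e4, smul_add, smul_smul, inv_mul_cancel₀ hc0, one_smul, smul_smul]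
  · rw [Pi.smul_apply, e4', smul_add, smul_smul, inv_mul_cancel₀ hc0, one_smul, smul_smul]

end

end Run7.h552.MX
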