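import Pool.Agent.Run7.h552.MX.Ne
import Pool.Agent.Run7.h552.MX.App
import Pool.Agent.Run7.h552.CT.Twr
import Pool.Agent.Q71.TM.Twr

/-!
# Towers over families of varieties of both parities
-/

open CategoryTheory AlgebraicGeometry Finset Function

set_option autoImplicit false
set_option linter.unusedSectionVars false

universe u v w

namespace Run7.h552.MX

open Pool.Agent Pool.Agent.H914 Pool.Agent.H914.VarClass Pool.Agent.H914.VarClass.Obj
  Pool.Agent.H914.WeilCohomology Pool.Agent.H281R3.HT Pool.Agent.W552 Pool.Agent.TH125.Gal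
  Pool.Agent.Y127 Pool.Agent.Y127.G Pool.Agent.Y95.ZT Run7.h552.CT Run7.h552.SF
open Pool.Agent.Q71.TM (AlgDefinedOver discriminant disc_eq)

section

variable {k : Type u} [Field k] {𝒱 : VarClass k} {ops : CycleOps 𝒱}
  {W : WeilCohomology.{u, v} ops} {P : Polarized 𝒱} {n : ℕ} {Z : 𝒱.Obj}
  {Γ : Type w} [Group Γ] {χ : Γ →* W.Kˣ} {ρ : Γ →* (W.H P.X ≃ₐ[W.K] W.H P.X)}
  {τ : Γ →* (W.H Z ≃ₐ[W.K] W.H Z)}
  {υ : Γ →* (W.H ((nest ops n fun _ => P).X.prod Z) ≃ₐ[W.K]
    W.H ((nest ops n fun _ => P).X.prod Z))}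

/-- twisted classes with the standard structure vanish -/
theorem zero_of_Tgt (hmid : transcendental W P.X ≤ W.gr P.X P.X.dim)
    (hG : IsGalois W χ P.X ρ) (hP : IsPowAct W P n Z ρ τ υ) (s : SB W P.X) {Δ : Subgroup Γ}
    (hfix : ∀ g ∈ Δ, ∀ i, ρ g (s.bC i) = (χ g : W.K) ^ s.jC i • (s.bC i : W.H P.X)) {j : ℕ}
    {ε : Γ → W.K} {c : W.H ((nest ops n fun _ => P).X.prod Z)}
    (hcj : c ∈ W.gr _ (2 * j)) (hc : ∀ g ∈ Δ, υ g c = (ε g * (χ g : W.K) ^ j) • c)
    (h1 : c ∈ Tgt s n Z) (hT : TwV W χ Δ ε Z τ) : c = 0 := by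
  obtain ⟨N, m, i, φ, hm, hφ, hexp⟩ := exists_expansion s n Z
  have h2 := hexp c h1
  have huni : ∀ (x : Fin N → W.H Z) (l : Fin N),
      TH125.Gal.ctr (φ l) (∑ l', W.map (fst _ Z) (m l') * W.map (snd _ Z) (x l')) = x l := by
    intro x l
    rw [map_sum, Finset.sum_eq_single l]
    · rw [ctr_apply, hφ, if_pos rfl, one_smul]
    · intro l' _ hl
      rw [ctr_apply, hφ, if_neg hl, zero_smul]
    · intro h
      exact absurd (Finset.mem_univ _) h
  set x : Fin N → W.H Z := fun l => TH125.Gal.ctr (φ l) c with hx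
  have hdeg : ∀ l, x l = if 2 * i l ≤ 2 * j then
      proj (W.isInternal Z) (2 * j - 2 * i l) (x l) else 0 := by
    intro l
    have h3 : c = ∑ l', W.map (fst _ Z) (m l') * W.map (snd _ Z)
        (if 2 * i l' ≤ 2 * j then proj (W.isInternal Z) (2 * j - 2 * i l') (x l') else 0) := by
      conv_lhs => rw [← proj_same (W.isInternal _) hcj, h2]
      rw [map_sum]
      refine Finset.sum_congr rfl fun l' _ => ?_
      obtain ⟨S, hS⟩ := hm l'
      rw [proj_ext (hS.gr hmid)]
      by_cases h : 2 * i l' ≤ 2 * j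
      · rw [if_pos h, if_pos h]
      · rw [if_neg h, if_neg h, map_zero, mul_zero]
    conv_lhs => rw [hx]
    beta_reduce
    rw [h3]
    exact huni _ l
  have hact : ∀ g ∈ Δ, ∀ l,
      (χ g : W.K) ^ i l • τ g (x l) = (ε g * (χ g : W.K) ^ j) • x l := by
    intro g hg l
    have h3 : υ g c = ∑ l', W.map (fst _ Z) (m l') * W.map (snd _ Z)
        ((χ g : W.K) ^ i l' • τ g (x l')) := by
      conv_lhs => rw [h2]
      rw [map_sum]
      refine Finset.sum_congr rfl fun l' _ => ?_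
      obtain ⟨S, hS⟩ := hm l'
      rw [map_mul, mq_act hmid hG hP (hfix g hg) hS, (hP g).2, map_smul, smul_mul_assoc,
        mul_smul_comm]
    have h4 := huni (fun l' => (χ g : W.K) ^ i l' • τ g (x l')) l
    rw [← h3, hc g hg, map_smul] at h4
    exact h4.symm
  have hzero : ∀ l, x l = 0 := by
    intro l
    by_cases h : 2 * i l ≤ 2 * j
    · have h3 := hdeg l
      rw [if_pos h] at h3
      have h4 : x l ∈ W.gr Z (2 * (j - i l)) := by
        rw [h3, show 2 * (j - i l) = 2 * j - 2 * i l by omega]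
        exact proj_mem _ _ _
      refine hT (j - i l) (x l) h4 fun g hg => ?_
      have h6 := hact g hg l
      have h7 : (ε g * (χ g : W.K) ^ j) = (χ g : W.K) ^ i l * (ε g * (χ g : W.K) ^ (j - i l)) := by
        have h8 : (χ g : W.K) ^ j = (χ g : W.K) ^ i l * (χ g : W.K) ^ (j - i l) := by
          rw [← pow_add]
          congr 1
          omega
        rw [h8]
        ring
      rw [h7, mul_smul] at h6
      exact smul_right_injective _ (pow_ne_zero _ (Units.ne_zero (χ g))) h6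
    · have h3 := hdeg l
      rwa [if_neg h] at h3
  rw [h2]
  refine Finset.sum_eq_zero fun l _ => ?_
  have h3 : TH125.Gal.ctr (φ l) c = 0 := hzero l
  rw [h3, map_zero, mul_zero]

/-- the standard structure, symplectic type -/
theorem tgt_sk {s : SB W P.X}
    {b : Module.Basis (Fin (n + 1) → Fin s.NC ⊕ Fin s.NT) W.K (W.H (nest ops n fun _ => P).X)}
    (hb : ∀ r, b r = mono (prj ops n fun _ => P) fun p => s.e (r p))
    (hmid : transcendental W P.X ≤ W.gr P.X P.X.dim) (ho : Odd P.X.dim)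
    {R : Matrix (Fin s.NT) (Fin s.NT) W.K} (hR : gram s * R = 1)
    {c : W.H ((nest ops n fun _ => P).X.prod Z)}
    (hinv : ∀ c₀ : Fin (n + 1) → Option (Fin s.NC),
      TH125.Nod.Inv (fun _ : Fin s.NT => ()) (gram s) (fun _ => -1)
        (fun r : Free c₀ → Fin s.NT => hS s b c c₀ fun l => s.uT (r l))) : c ∈ Tgt s n Z := by
  have hsk : ∀ a b : Fin s.NT, Y127.gram s a b = (-1 : W.K) * Y127.gram s b a := by
    intro a b
    rw [Y127.gram, Matrix.of_apply, Matrix.of_apply, trans_symm hmid (s.uT a).2 (s.uT b).2,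
      ho.neg_one_pow]
  refine mem_Tgt_of_gen hb hmid fun c₀ => ?_
  have h3 := TH125.Nod.fft (K := W.K) (κ := fun _ : Fin s.NT => ())
    (Q := gram s) (R := R)
    (s := fun _ => -1) (fun _ => Or.inr rfl) (fun a b hab => absurd rfl hab)
    (fun a b => by
      rw [Int.cast_neg, Int.cast_one]
      exact hsk a b) hR
    (Fintype.card (Free c₀)) (Free c₀) (fun _ => ()) _ rfl
    (fun r hr => absurd (fun _ => rfl) hr) (by simpa using hinv c₀)
    (fun _ h => absurd h (by norm_num))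
  have h4 : (fun r : Free c₀ → Fin s.NT => hS s b c c₀ fun j => s.uT (r j)) =
      fun r : Free c₀ → Fin s.NT => hml s.e b c fun p => s.es (comb c₀ r p) := by
    funext r
    exact hS_comb c c₀ r
  rw [← h4]
  exact h3

end

variable {k : Type u} [Field k] {𝒱 : VarClass k} {ops : CycleOps 𝒱}
  {W : WeilCohomology.{u, 0} ops} {Γ : Type} [Group Γ] {χ : Γ →* W.Kˣ}
  {ι : Type} {X : ι → GVar W Γ} {Z : GVar W Γ} {S L : Set ι} {Y : GVar W Γ}

/-- Families of both parities, in the form used in the proofs. -/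
structure Fam (χ : Γ →* W.Kˣ) (X : ι → GVar W Γ) where
  galois : ∀ i, GaloisType χ (X i)
  homEqNum : ∀ i, HomEqNum W (X i).X
  middle : ∀ i, transcendental W (X i).X ≤ W.gr (X i).X (X i).X.dim
  irreducible : ∀ i, IrredAct (X i).act (transcendental W (X i).X)
  lsp : ∀ i, Odd (X i).X.dim → BigLoc (trRep (galois i))
  lso : ∀ i, Even (X i).X.dim → (transRank W (X i).X = 3 ∨ 5 ≤ transRank W (X i).X) ∧
    BigLocO (trRep (galois i))
  notIso : ∀ i j, i ≠ j → ¬TwistIso (X i).act (transcendental W (X i).X) (X j).act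
    (transcendental W (X j).X)
  mixed : ∀ i j, Odd (X i).X.dim → Even (X j).X.dim →
    transRank W (X j).X = transRank W (X i).X + 1 → 5 < transRank W (X j).X
  eight : ∀ i j, i ≠ j → Even (X i).X.dim → Even (X j).X.dim → transRank W (X i).X = 8 →
    transRank W (X j).X = 8 → SameLoc (trRep (galois i)) (trRep (galois j))

theorem tr_ev {X : GVar W Γ} (hmid : transcendental W X.X ≤ W.gr X.X X.X.dim)
    (ho : ¬Odd X.X.dim) (x y : transcendental W X.X) :
    rform W X.X (transcendental W X.X) x y = rform W X.X (transcendental W X.X) y x := by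
  rw [rform_apply, rform_apply, trans_symm hmid x.2 y.2,
    (Nat.not_odd_iff_even.1 ho).neg_one_pow, one_mul]

namespace Fam

variable (h : Fam χ X)

/-- the members as representations -/
noncomputable def rep (i : ι) : MRep (trRep (h.galois i)) :=
  if ho : Odd (X i).X.dim then
    .sp { B := rform W (X i).X (transcendental W (X i).X)
          μ := χ ^ (X i).X.dim
          eqv := fun g x y => tr_eqv (h.galois i) g x y
          sy := fun x y => tr_sk (h.middle i) ho x y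
          nd := trans_nondeg (h.homEqNum i)
          si := SI_rhoT (P := (⟨(X i).X, 0⟩ : Polarized 𝒱)) (isGalois (h.galois i))
            (h.irreducible i)
          loc := h.lsp i ho }
  else
    .so { B := rform W (X i).X (transcendental W (X i).X)
          μ := χ ^ (X i).X.dim
          eqv := fun g x y => tr_eqv (h.galois i) g x y
          sy := fun x y => tr_ev (h.middle i) ho x y
          nd := trans_nondeg (h.homEqNum i)
          si := SI_rhoT (P := (⟨(X i).X, 0⟩ : Polarized 𝒱)) (isGalois (h.galois i))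
            (h.irreducible i)
          dim := (h.lso i (Nat.not_odd_iff_even.1 ho)).1
          loc := (h.lso i (Nat.not_odd_iff_even.1 ho)).2 }

theorem rep_odd {i : ι} (ho : Odd (X i).X.dim) : ¬(h.rep i).IsO ∧
    (h.rep i).B = rform W (X i).X (transcendental W (X i).X) ∧ (h.rep i).s = -1 := by
  unfold rep
  rw [dif_pos ho]
  exact ⟨fun h => h, rfl, rfl⟩

theorem rep_even {i : ι} (ho : Even (X i).X.dim) : (h.rep i).IsO ∧
    (h.rep i).B = rform W (X i).X (transcendental W (X i).X) ∧ (h.rep i).s = 1 := by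
  unfold rep
  rw [dif_neg (Nat.not_odd_iff_even.2 ho)]
  exact ⟨trivial, rfl, rfl⟩

theorem isO_iff {i : ι} : (h.rep i).IsO ↔ Even (X i).X.dim := by
  constructor
  · intro h1
    by_contra h2
    exact (h.rep_odd (Nat.not_even_iff_odd.1 h2)).1 h1
  · intro h1
    exact (h.rep_even h1).1

theorem indep : Indep h.rep where
  iso := fun i j hij => not_isoUpTo (h.notIso i j hij)
  mixed := fun i j h1 h2 h3 => h.mixed i j
    (Nat.not_even_iff_odd.1 fun h4 => h1 (h.isO_iff.2 h4)) (h.isO_iff.1 h2) h3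
  eight := fun i j hij h1 h2 h3 h4 => h.eight i j hij (h.isO_iff.1 h1) (h.isO_iff.1 h2) h3 h4

/-- the transcendental cohomology is not zero -/
theorem exists_ne [IsAlgClosed W.K] (h : Fam χ X) (i : ι) : ∃ t : transcendental W (X i).X, t ≠ 0 := by
  rcases Nat.even_or_odd (X i).X.dim with h1 | h1
  · by_contra hcon
    push Not at hcon
    have h2 : Subsingleton (transcendental W (X i).X) := ⟨fun a b => by rw [hcon a, hcon b]⟩
    have h3 : transRank W (X i).X = 0 := Module.finrank_zero_of_subsingleton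
    have h4 := (h.lso i h1).1
    omega
  · exact exists_ne_of_bigLoc (h.lsp i h1)

theorem one_ne [IsAlgClosed W.K] (h : Fam χ X) (i : ι) : (1 : W.H (X i).X) ≠ 0 := by
  obtain ⟨t, ht⟩ := h.exists_ne i
  intro h3
  apply ht
  apply Subtype.ext
  have h4 : ∀ t : W.H (X i).X, t = 0 := fun t => by rw [← one_mul t, h3, zero_mul]
  exact h4 _

/-- The base in the form used in the proofs. -/
def Base (Z : GVar W Γ) : Prop :=
  ∀ i, ∃ (m : ℕ) (M : Fin m → FRep W.K Γ) (f : ∀ a, (M a).V →ₗ[W.K] W.H Z.X),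
    (∀ a, (h.rep i).Small (M a)) ∧
    (∀ a g x, f a ((M a).ρ g x) = Z.act g (f a x)) ∧
    Algebra.adjoin W.K (SemiInv χ Z.act ∪ ⋃ a, Set.range (f a)) = ⊤

variable {h}

/-- the discriminant character of a member of the family -/
noncomputable def ds (h : Fam χ X) (i : ι) (g : Γ) : W.K :=
  dsc (P := (⟨(X i).X, 0⟩ : Polarized 𝒱)) χ (isGalois (h.galois i)) g

theorem sb [IsAlgClosed W.K] (h : Fam χ X) {i : ι} (he : Even (X i).X.dim) :
    ∃ (s : SB W (X i).X) (o : Fin s.NT) (R : Matrix (Fin s.NT) (Fin s.NT) W.K),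
      (∀ q, q ≠ o → gram (P := (⟨(X i).X, 0⟩ : Polarized 𝒱)) s o q = 0) ∧
        gram (P := (⟨(X i).X, 0⟩ : Polarized 𝒱)) s * R = 1 := by
  refine exists_adapted_SB (P := (⟨(X i).X, 0⟩ : Polarized 𝒱)) (h.homEqNum i)
    (h.middle i) he ?_
  have h1 := (h.lso i he).1
  change 0 < transRank W (X i).X
  omega

theorem pot [IsAlgClosed W.K] (h : Fam χ X) {i : ι} (he : Even (X i).X.dim) : Pot (h.ds i) := by
  obtain ⟨s, o, R, -, hR⟩ := h.sb he
  exact dsc_pot (P := (⟨(X i).X, 0⟩ : Polarized 𝒱)) (isGalois (h.galois i)) he hR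

variable [IsAlgClosed W.K]

/-- **The Lie algebra kills the coordinates.** -/
theorem inv_step (e : W.K ≃+* ℂ) (hB : h.Base Z) (hY : LTower X Z S L Y)
    {i : ι} (hi : i ∉ S) {n : ℕ}
    {υ : Γ →* (W.H ((power ops (X i).X n).prod Y.X) ≃ₐ[W.K] W.H ((power ops (X i).X n).prod Y.X))}
    (hP : IsPowAct W (⟨(X i).X, 0⟩ : Polarized 𝒱) n Y.X (X i).act Y.act υ)
    {s : SB W (X i).X}
    {b : Module.Basis (Fin (n + 1) → Fin s.NC ⊕ Fin s.NT) W.K
      (W.H (nest ops n fun _ => (⟨(X i).X, 0⟩ : Polarized 𝒱)).X)}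
    (hb : ∀ r, b r = mono (prj ops n fun _ => (⟨(X i).X, 0⟩ : Polarized 𝒱)) fun p => s.e (r p))
    {z : W.H ((power ops (X i).X n).prod Y.X)} {j : ℕ} {Δ : Subgroup Γ} (hΔ : Δ.FiniteIndex)
    (hz : ∀ g ∈ Δ, υ g z = (χ g : W.K) ^ j • z) (c₀ : Fin (n + 1) → Option (Fin s.NC)) :
    TH125.Nod.Inv (fun _ : Fin s.NT => ()) (gram (P := (⟨(X i).X, 0⟩ : Polarized 𝒱)) s)
      (fun _ => (h.rep i).s) (fun r : Free c₀ → Fin s.NT =>
        hS (P := (⟨(X i).X, 0⟩ : Polarized 𝒱)) s b z c₀ fun l => s.uT (r l)) := by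
  obtain ⟨m, M, f, hM, hf, hgen⟩ := hB i
  have hgb := genBy_twr h.galois h.homEqNum hf hgen hY
  have hG : IsGalois W χ (X i).X (X i).act := isGalois (h.galois i)
  have h1 := hS_eqv (P := (⟨(X i).X, 0⟩ : Polarized 𝒱)) hb hG hP hΔ hz c₀
  have h2 := fun x y => kill_of_mixed (A := W.H Y.X) (T := fun j => trRep (h.galois j)) (M := M) e
    (χ := χ) (τ := Y.act) (LTower.finite hY) hgb h.rep h.indep hi hM
    (lamb (P := (⟨(X i).X, 0⟩ : Polarized 𝒱)) χ s c₀ j)
    (h := hS (P := (⟨(X i).X, 0⟩ : Polarized 𝒱)) s b z c₀) h1 x y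
  have hB' : (h.rep i).B = rform W (X i).X (transcendental W (X i).X) := by
    rcases Nat.even_or_odd (X i).X.dim with h3 | h3
    · exact (h.rep_even h3).2.1
    · exact (h.rep_odd h3).2.1
  rw [hB'] at h2
  exact inv_of_kill (s := (h.rep i).s) (B := rform W (X i).X (transcendental W (X i).X))
    (fun u w => h2 u w) s.uT

/-- odd members -/
theorem tgt_odd (e : W.K ≃+* ℂ) (hB : h.Base Z) (hY : LTower X Z S L Y)
    {i : ι} (hi : i ∉ S) (ho : Odd (X i).X.dim) {n : ℕ}
    {υ : Γ →* (W.H ((power ops (X i).X n).prod Y.X) ≃ₐ[W.K] W.H ((power ops (X i).X n).prod Y.X))}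
    (hP : IsPowAct W (⟨(X i).X, 0⟩ : Polarized 𝒱) n Y.X (X i).act Y.act υ) (s : SB W (X i).X)
    {z : W.H ((power ops (X i).X n).prod Y.X)} {j : ℕ} {Δ : Subgroup Γ} (hΔ : Δ.FiniteIndex)
    (hz : ∀ g ∈ Δ, υ g z = (χ g : W.K) ^ j • z) :
    z ∈ Tgt (P := (⟨(X i).X, 0⟩ : Polarized 𝒱)) s n Y.X := by
  obtain ⟨b, hb⟩ := exists_monoBasis (ops := ops) (⟨(X i).X, 0⟩ : Polarized 𝒱) s.e n
  have hsk : ∀ x y : transcendental W (X i).X, rform W (X i).X (transcendental W (X i).X) x y =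
      (-1 : W.K) * rform W (X i).X (transcendental W (X i).X) y x := fun x y =>
    (tr_sk (h.middle i) ho x y).trans (neg_one_mul _).symm
  obtain ⟨R, hR⟩ := exists_inv_gram (s := (-1 : W.K))
    (B := rform W (X i).X (transcendental W (X i).X)) hsk (trans_nondeg (h.homEqNum i)) s.uT
  refine tgt_sk (P := (⟨(X i).X, 0⟩ : Polarized 𝒱)) hb (h.middle i) ho hR fun c₀ => ?_
  have h1 := inv_step e hB hY hi hP hb hΔ hz c₀
  rwa [(h.rep_odd ho).2.2] at h1

/-- **Twisted classes on towers.** -/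
theorem tw_tower (e : W.K ≃+* ℂ) (hB : h.Base Z) {Δ : Subgroup Γ} (hΔ : Δ.FiniteIndex)
    (hY : LTower X Z S L Y) : (∀ i ∈ S, AlgDefinedOver χ Δ (X i)) → ∀ ε : Γ → W.K, Pot ε →
      (∀ I : Finset ι, (I : Set ι) ⊆ L → (∀ i ∈ I, Even (X i).X.dim) →
        TwV W χ Δ (fun g => ε g * ∏ i ∈ I, h.ds i g) Z.X Z.act) → TwV W χ Δ ε Y.X Y.act := by
  classical
  have odd : ∀ {S L : Set ι} {Y Y' : GVar W Γ} (i : ι) (n : ℕ) (_ : LTower X Z S L Y) (_ : i ∉ S)
      (_ : Odd (X i).X.dim) (_ : Pool.Agent.TH125.Gal.IsPowProd (X i) n Y Y')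
      (_ : AlgDefinedOver χ Δ (X i)) (ε : Γ → W.K) (_ : Pot ε) (_ : TwV W χ Δ ε Y.X Y.act),
      TwV W χ Δ ε Y'.X Y'.act := by
    intro S L Y Y' i n hT hi ho hP hfix ε hε hI
    obtain ⟨υ, h1, h2⟩ := hP
    obtain ⟨hε0, Δ', hΔ', hε1⟩ := hε
    intro j z hzj hz
    obtain ⟨s⟩ := exists_SB (h.homEqNum i)
    have h3 := tgt_odd e hB hT hi ho (isPowAct h1 h2) s (z := z) (j := j) (Δ := Δ ⊓ Δ')
      inferInstance (fun g hg => by rw [hz g hg.1, hε1 g hg.2, one_mul])
    exact zero_of_Tgt (P := (⟨(X i).X, 0⟩ : Polarized 𝒱)) (h.middle i) (isGalois (h.galois i))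
      (isPowAct h1 h2) s (fun g hg a => hfix _ _ (s.alg a) g hg) hzj hz h3 hI
  induction hY with
  | base =>
    intro _ ε _ hI
    have h1 := hI ∅ (by simp) (by simp)
    simpa using h1
  | @small S L Y Y' i n hT hi hn hP ih =>
    intro hfix ε hε hI
    rcases Nat.even_or_odd (X i).X.dim with he | ho
    · obtain ⟨υ, h1, h2⟩ := hP
      intro j z hzj hz
      obtain ⟨s, o, R, ho, hR⟩ := h.sb he
      obtain ⟨b, hb⟩ := exists_monoBasis (ops := ops) (⟨(X i).X, 0⟩ : Polarized 𝒱) s.e n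
      obtain ⟨hε0, Δ', hΔ', hε1⟩ := hε
      have hinv := fun c₀ => inv_step e hB hT hi (isPowAct h1 h2) hb (z := z) (j := j)
        (Δ := Δ ⊓ Δ') inferInstance (fun g hg => by rw [hz g hg.1, hε1 g hg.2, one_mul]) c₀
      rw [(h.rep_even he).2.2] at hinv
      refine tw_step (P := (⟨(X i).X, 0⟩ : Polarized 𝒱)) hb (h.middle i)
        (isGalois (h.galois i)) (isPowAct h1 h2) he hR ho
        (fun g hg a => hfix i (Set.mem_insert _ _) _ _ (s.alg a) g hg) hzj hε0 hz hinv
        (Or.inl ?_) ?_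
      · have h3 := hn he
        unfold transRank at h3
        rwa [Module.finrank_eq_card_basis s.uT, Fintype.card_fin] at h3
      · exact ih (fun a ha => hfix a (Set.mem_insert_of_mem _ ha)) ε ⟨hε0, Δ', hΔ', hε1⟩ hI
    · exact odd i n hT hi ho hP (hfix i (Set.mem_insert _ _)) ε hε
        (ih (fun a ha => hfix a (Set.mem_insert_of_mem _ ha)) ε hε hI)
  | @large S L Y Y' i n hT hi hP ih =>
    intro hfix ε hε hI
    rcases Nat.even_or_odd (X i).X.dim with he | ho
    · obtain ⟨υ, h1, h2⟩ := hP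
      intro j z hzj hz
      obtain ⟨s, o, R, ho, hR⟩ := h.sb he
      obtain ⟨b, hb⟩ := exists_monoBasis (ops := ops) (⟨(X i).X, 0⟩ : Polarized 𝒱) s.e n
      obtain ⟨hε0, Δ', hΔ', hε1⟩ := id hε
      have hinv := fun c₀ => inv_step e hB hT hi (isPowAct h1 h2) hb (z := z) (j := j)
        (Δ := Δ ⊓ Δ') inferInstance (fun g hg => by rw [hz g hg.1, hε1 g hg.2, one_mul]) c₀
      rw [(h.rep_even he).2.2] at hinv
      refine tw_step (P := (⟨(X i).X, 0⟩ : Polarized 𝒱)) hb (h.middle i)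
        (isGalois (h.galois i)) (isPowAct h1 h2) he hR ho
        (fun g hg a => hfix i (Set.mem_insert _ _) _ _ (s.alg a) g hg) hzj hε0 hz hinv
        (Or.inr ?_) ?_
      · refine ih (fun a ha => hfix a (Set.mem_insert_of_mem _ ha)) (fun g => ε g * h.ds i g)
          (hε.mul (h.pot he)) fun I hIL hIe => ?_
        have hiI : i ∉ I := fun h => hi (hT.sub (hIL h))
        have h3 := hI (insert i I) (by
          rw [Finset.coe_insert]
          exact Set.insert_subset_insert hIL) (by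
          intro a ha
          rcases Finset.mem_insert.1 ha with rfl | ha
          · exact he
          · exact hIe a ha)
        simp only [Finset.prod_insert hiI, ← mul_assoc] at h3
        exact h3
      · exact ih (fun a ha => hfix a (Set.mem_insert_of_mem _ ha)) ε hε fun I hIL =>
          hI I (hIL.trans (Set.subset_insert _ _))
    · exact odd i n hT hi ho hP (hfix i (Set.mem_insert _ _)) ε hε
        (ih (fun a ha => hfix a (Set.mem_insert_of_mem _ ha)) ε hε fun I hIL =>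
          hI I (hIL.trans (Set.subset_insert _ _)))

/-- **The classes on towers.** -/
theorem tc_tower (e : W.K ≃+* ℂ) (hB : h.Base Z) {Δ : Subgroup Γ} (hΔ : Δ.FiniteIndex)
    (hZ : TC W χ Δ Z.X Z.act) (hY : LTower X Z S L Y) : (∀ i ∈ S, AlgDefinedOver χ Δ (X i)) →
      (∀ I : Finset ι, I.Nonempty → (I : Set ι) ⊆ L → (∀ i ∈ I, Even (X i).X.dim) →
        TwV W χ Δ (fun g => ∏ i ∈ I, h.ds i g) Z.X Z.act) → TC W χ Δ Y.X Y.act := by
  classical
  have odd : ∀ {S L : Set ι} {Y Y' : GVar W Γ} (i : ι) (n : ℕ) (_ : LTower X Z S L Y) (_ : i ∉ S)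
      (_ : Odd (X i).X.dim) (_ : Pool.Agent.TH125.Gal.IsPowProd (X i) n Y Y')
      (_ : AlgDefinedOver χ Δ (X i)) (_ : TC W χ Δ Y.X Y.act), TC W χ Δ Y'.X Y'.act := by
    intro S L Y Y' i n hT hi ho hP hfix hI
    obtain ⟨υ, h1, h2⟩ := hP
    intro j z hzj hz
    obtain ⟨s⟩ := exists_SB (h.homEqNum i)
    have h3 := tgt_odd e hB hT hi ho (isPowAct h1 h2) s (z := z) (j := j) hΔ hz
    exact step_of_Tgt' (P := (⟨(X i).X, 0⟩ : Polarized 𝒱)) (h.homEqNum i) (h.middle i)
      (isGalois (h.galois i)) (isPowAct h1 h2) s (fun g hg a => hfix _ _ (s.alg a) g hg) hzj hz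
      h3 hI
  induction hY with
  | base => intro _ _; exact hZ
  | @small S L Y Y' i n hT hi hn hP ih =>
    intro hfix hI
    rcases Nat.even_or_odd (X i).X.dim with he | ho
    · obtain ⟨υ, h1, h2⟩ := hP
      intro j z hzj hz
      obtain ⟨s, o, R, ho, hR⟩ := h.sb he
      obtain ⟨b, hb⟩ := exists_monoBasis (ops := ops) (⟨(X i).X, 0⟩ : Polarized 𝒱) s.e n
      have hinv := fun c₀ => inv_step e hB hT hi (isPowAct h1 h2) hb (z := z) (j := j) hΔ hz c₀
      rw [(h.rep_even he).2.2] at hinv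
      refine step_of_Tgt' (P := (⟨(X i).X, 0⟩ : Polarized 𝒱)) (h.homEqNum i)
        (h.middle i) (isGalois (h.galois i)) (isPowAct h1 h2) s
        (fun g hg a => hfix i (Set.mem_insert _ _) _ _ (s.alg a) g hg) hzj hz ?_
        (ih (fun a ha => hfix a (Set.mem_insert_of_mem _ ha)) hI)
      refine tgt_step (P := (⟨(X i).X, 0⟩ : Polarized 𝒱)) (ε := fun _ => 1) (Δ := Δ) (j := j) hb
        (h.middle i) (isGalois (h.galois i)) (isPowAct h1 h2) he hR ho
        (fun g hg a => hfix i (Set.mem_insert _ _) _ _ (s.alg a) g hg) hzj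
        (fun g hg => by rw [one_mul]; exact hz g hg) hinv rfl (Or.inl ?_)
      have h3 := hn he
      unfold transRank at h3
      rwa [Module.finrank_eq_card_basis s.uT, Fintype.card_fin] at h3
    · exact odd i n hT hi ho hP (hfix i (Set.mem_insert _ _))
        (ih (fun a ha => hfix a (Set.mem_insert_of_mem _ ha)) hI)
  | @large S L Y Y' i n hT hi hP ih =>
    intro hfix hI
    rcases Nat.even_or_odd (X i).X.dim with he | ho
    · obtain ⟨υ, h1, h2⟩ := hP
      intro j z hzj hz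
      obtain ⟨s, o, R, ho, hR⟩ := h.sb he
      obtain ⟨b, hb⟩ := exists_monoBasis (ops := ops) (⟨(X i).X, 0⟩ : Polarized 𝒱) s.e n
      have hinv := fun c₀ => inv_step e hB hT hi (isPowAct h1 h2) hb (z := z) (j := j) hΔ hz c₀
      rw [(h.rep_even he).2.2] at hinv
      refine step_of_Tgt' (P := (⟨(X i).X, 0⟩ : Polarized 𝒱)) (h.homEqNum i)
        (h.middle i) (isGalois (h.galois i)) (isPowAct h1 h2) s
        (fun g hg a => hfix i (Set.mem_insert _ _) _ _ (s.alg a) g hg) hzj hz ?_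
        (ih (fun a ha => hfix a (Set.mem_insert_of_mem _ ha)) fun I hne hIL =>
          hI I hne (hIL.trans (Set.subset_insert _ _)))
      refine tgt_step (P := (⟨(X i).X, 0⟩ : Polarized 𝒱)) (ε := fun _ => 1) (Δ := Δ) (j := j) hb
        (h.middle i) (isGalois (h.galois i)) (isPowAct h1 h2) he hR ho
        (fun g hg a => hfix i (Set.mem_insert _ _) _ _ (s.alg a) g hg) hzj
        (fun g hg => by rw [one_mul]; exact hz g hg) hinv rfl (Or.inr ?_)
      refine tw_tower e hB hΔ hT (fun a ha => hfix a (Set.mem_insert_of_mem _ ha))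
        (fun g => 1 * h.ds i g) (Pot.one.mul (h.pot he)) fun I hIL hIe => ?_
      have hiI : i ∉ I := fun h => hi (hT.sub (hIL h))
      have h3 := hI (insert i I) (Finset.insert_nonempty _ _) (by
        rw [Finset.coe_insert]
        exact Set.insert_subset_insert hIL) (by
          intro a ha
          rcases Finset.mem_insert.1 ha with rfl | ha
          · exact he
          · exact hIe a ha)
      simp only [Finset.prod_insert hiI] at h3
      simp only [one_mul]
      exact h3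
    · exact odd i n hT hi ho hP (hfix i (Set.mem_insert _ _))
        (ih (fun a ha => hfix a (Set.mem_insert_of_mem _ ha)) fun I hne hIL =>
          hI I hne (hIL.trans (Set.subset_insert _ _)))

/-- from the product to the base -/
theorem conv (h : Fam χ X) (hY : LTower X Z S L Y) {Δ : Subgroup Γ}
    (hT : TC W χ Δ Y.X Y.act) : TC W χ Δ Z.X Z.act := by
  induction hY with
  | base => exact hT
  | @small S L Y Y' i n _ hi hn hP ih =>
    obtain ⟨υ, h1, h2⟩ := hP
    exact ih (conv_exact (P := ⟨(X i).X, 0⟩) (h.homEqNum i) (h.one_ne i) (isPowAct h1 h2) hT)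
  | @large S L Y Y' i n _ hi hP ih =>
    obtain ⟨υ, h1, h2⟩ := hP
    exact ih (conv_exact (P := ⟨(X i).X, 0⟩) (h.homEqNum i) (h.one_ne i) (isPowAct h1 h2) hT)

/-- **Exponents smaller than the rank for the even-dimensional members.** -/
theorem small (e : W.K ≃+* ℂ) (hB : h.Base Z) (hY : LTower X Z S L Y)
    (hL : ∀ i ∈ L, Odd (X i).X.dim) (hZ : TateConjecture χ Z) : TateConjecture χ Y := by
  rintro j z hzj ⟨Δ, hΔ, hz⟩
  choose Δ' hΔ' hA using fun i => exists_algDefined (D := (⟨χ, 0, 1⟩ : Frob W.K Γ))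
    (h.galois i)
  have hS := LTower.finite hY
  have := hS.to_subtype
  have h1 : (⨅ i : S, Δ' i).FiniteIndex := Subgroup.finiteIndex_iInf fun i => hΔ' i
  have h2 : (Δ ⊓ ⨅ i : S, Δ' i).FiniteIndex := inferInstance
  refine tc_tower e hB h2 (tc_of_tate (D := (⟨χ, 0, 1⟩ : Frob W.K Γ)) hZ h2) hY
    (fun i hi => AlgDefined.mono (D := (⟨χ, 0, 1⟩ : Frob W.K Γ)) (hA i) ?_) ?_ j z hzj
    fun g hg => hz g hg.1
  · exact inf_le_right.trans (iInf_le (fun i : S => Δ' i) ⟨i, hi⟩)
  · intro I hne hI hIe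
    obtain ⟨i, hi⟩ := hne
    exact absurd (hL i (hI hi)) (Nat.not_odd_iff_even.2 (hIe i hi))

/-- **All exponents.** -/
theorem large (e : W.K ≃+* ℂ) (hB : h.Base Z) (hY : LTower X Z S L Y)
    (hZ : TateConjecture χ Z) {Δ : Subgroup Γ} (hΔ : Δ.FiniteIndex)
    (hA : ∀ i ∈ S, AlgDefinedOver χ Δ (X i)) (hAZ : AlgDefinedOver χ Δ Z)
    (hd : IndepOn Δ (fun i => discriminant χ (X i)) {i ∈ L | Even (X i).X.dim}) :
    TC W χ Δ Y.X Y.act := by
  refine tc_tower e hB hΔ (tc_of_tate (D := (⟨χ, 0, 1⟩ : Frob W.K Γ)) hZ hΔ) hY hA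
    fun I hne hI hIe => ?_
  refine twV_base (D := (⟨χ, 0, 1⟩ : Frob W.K Γ)) hZ hΔ hAZ ?_ ?_
  · clear hne hI
    classical
    induction I using Finset.induction_on with
    | empty => simpa using Pot.one
    | insert a I ha ih =>
      simp only [Finset.prod_insert ha]
      exact (h.pot (hIe a (Finset.mem_insert_self _ _))).mul
        (ih fun b hb => hIe b (Finset.mem_insert_of_mem hb))
  · obtain ⟨g, hg, h1⟩ := hd I hne fun i hi => ⟨hI hi, hIe i hi⟩
    refine ⟨g, hg, fun h2 => h1 ?_⟩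
    rw [← h2]
    exact Finset.prod_congr rfl fun i _ => disc_eq (h.galois i) g

/-- the Tate conjecture over the fixed field of `Δ'` -/
theorem overField (e : W.K ≃+* ℂ) (hB : h.Base Z) (hY : LTower X Z S L Y)
    (hG : GaloisType χ Y) (hZ : TateConjecture χ Z) (Δ' : Subgroup Γ) (hΔ' : Δ'.FiniteIndex)
    (hL : (∀ i ∈ L, Odd (X i).X.dim) ∨ ∃ Δ ≤ Δ', Δ.FiniteIndex ∧
      (∀ i ∈ S, AlgDefinedOver χ Δ (X i)) ∧ AlgDefinedOver χ Δ Z ∧
      IndepOn Δ (fun i => discriminant χ (X i)) {i ∈ L | Even (X i).X.dim}) :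
    TateOver χ Δ' Y := by
  rcases hL with hL | ⟨Δ, hle, hΔ, hA, hAZ, hd⟩
  · have h1 := small e hB hY hL hZ
    exact tateOver_of_tc hG fun j c hcj hc => h1 j c hcj ⟨Δ', hΔ', hc⟩
  · exact TateOver.mono (D := (⟨χ, 0, 1⟩ : Frob W.K Γ)) hG (large e hB hY hZ hΔ hA hAZ hd) hle

/-- the converse -/
theorem conv' (h : Fam χ X) (hY : LTower X Z S L Y)
    (hT : ∀ Δ : Subgroup Γ, Δ.FiniteIndex → TateOver χ Δ Y) : TateConjecture χ Z := by
  rintro j c hcj ⟨Δ, hΔ, hc⟩
  exact h.conv hY (tc_of_tateOver (hT Δ hΔ)) j c hcj hc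

end Fam

end Run7.h552.MX
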